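import Pool.Agent.Lib.MP_8d8c46_lc.Problem

/-!
Lasserre (sum-of-squares) relaxations and equivariant semidefinite programming relaxations of the
problem of finding a set of vertices of small expansion.
-/

set_option autoImplicit false

open Finset
open scoped Classical

namespace Pool.Agent.Lib.MP_8d8c46_lc.SOS

/-- `X` is a feasible solution of the level `k` Lasserre (sum-of-squares) relaxation of the
constraint that a set of vertices has exactly `s` elements. `X T` is the pseudo-probability that the
set contains `T`. -/
structure Lasserre {V : Type*} [Fintype V] [DecidableEq V] (k : ℕ) (s : ℝ) (X : Finset V → ℝ) :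
    Prop where
  /-- normalisation -/
  one : X ∅ = 1
  /-- the moment matrix `(X (S ∪ T))`, indexed by the sets of at most `k` vertices, is positive
  semidefinite -/
  psd : ∀ c : Finset V → ℝ, 0 ≤ ∑ S ∈ univ.filter (fun S : Finset V => S.card ≤ k),
    ∑ T ∈ univ.filter (fun T : Finset V => T.card ≤ k), c S * c T * X (S ∪ T)
  /-- the size constraint `∑ v, x v = s`, multiplied by the monomial of `T` -/
  size : ∀ T : Finset V, T.card + 1 ≤ 2 * k → ∑ v, X (insert v T) = s * X T

/-- The expansion of the pseudo-set `X` of `s` vertices in the `d`-regular graph `G`: the
pseudo-expectation of the number of cut edges, divided by `d * s`. The sum is over the ordered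
pairs `(u, v)` of adjacent vertices, and `X {u} - X {u, v}` is the pseudo-probability that `u` is in
the set and `v` is not. -/
noncomputable def pseudoExpansion {V : Type*} [Fintype V] [DecidableEq V] (G : SimpleGraph V)
    (d : ℕ) (s : ℝ) (X : Finset V → ℝ) : ℝ :=
  (∑ e ∈ univ.filter (fun e : V × V => G.Adj e.1 e.2), (X {e.1} - X {e.1, e.2})) / (d * s)

/-- A semidefinite programming relaxation for finding a set of `δ|V|` vertices of small expansion
in a `d`-regular graph on `V` which is equivariant under the permutations of `V`. The feasible
region, the set of all positive semidefinite `size × size` matrices in the affine space `space`,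
does not depend on the graph; every set `S` of `δ|V|` vertices is mapped to a point of it, and the
graph `G` enters only through an affine objective function whose value at the point of `S` is the
expansion of `S` in `G`. A permutation `σ` of `V` acts on the matrices by `Y ↦ ρ(σ) Y ρ(σ)ᵀ` for some
representation `ρ` of the symmetric group, and maps the point of `S` to the point of `σ(S)`. -/
structure EquivariantSDP (V : Type) [Fintype V] (δ : ℚ) (d : ℕ) where
  size : ℕ
  space : AffineSubspace ℝ (Matrix (Fin size) (Fin size) ℝ)
  point : Finset V → Matrix (Fin size) (Fin size) ℝ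
  feasible : ∀ S : Finset V, (S.card : ℚ) = δ * Fintype.card V →
    point S ∈ space ∧ (point S).PosSemidef
  obj : SimpleGraph V → Matrix (Fin size) (Fin size) ℝ →ᵃ[ℝ] ℝ
  exact : ∀ G : SimpleGraph V, Regular G d → ∀ S : Finset V,
    (S.card : ℚ) = δ * Fintype.card V → obj G (point S) = (expansion G d S : ℝ)
  rep : Equiv.Perm V →* Matrix (Fin size) (Fin size) ℝ
  equivariant : ∀ (σ : Equiv.Perm V) (S : Finset V), (S.card : ℚ) = δ * Fintype.card V →
    point (S.map σ.toEmbedding) = rep σ * point S * (rep σ).transpose

end Pool.Agent.Lib.MP_8d8c46_lc.SOS
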