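import Pool.Agent.Lib.MP_8d8c46_lc.SOS.Value
import Pool.Agent.Lib.MP_8d8c46_lc.SOS.Defs

/-!
The signed measure gives feasible solutions of the Lasserre relaxation and of every small
equivariant semidefinite relaxation.
-/

set_option autoImplicit false

open scoped Classical
open Finset Matrix

namespace Pool.Agent.Lib.MP_8d8c46_lc.SOS

section rep
variable {V E₁ E₂ : Type} [Fintype V] [Fintype E₁] [Fintype E₂] {p : ℕ} [Fact p.Prime]

omit [Fintype V] in
lemma sign_perm' (x : E₁ ⊕ E₂ → Fin 3 → V) (y : V → ZMod 2)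
    {inst : DecidableEq (((E₁ ⊕ E₂) × Lab) × Pl p)} :
    @Equiv.Perm.sign (((E₁ ⊕ E₂) × Lab) × Pl p) inst _ (perm x p y) = 1 := by
  have h : inst = (fun a b => instDecidableEqProd a b) := Subsingleton.elim _ _
  subst h
  exact sign_perm x p y

/-- The matrix coefficients of a small representation are functions of low degree of the
assignment. -/
lemma coef_mem_Deg (x : E₁ ⊕ E₂ → Fin 3 → V) {r k : ℕ} (hr : r < 2 ^ (k + 1))
    [Nonempty (((E₁ ⊕ E₂) × Lab) × Pl p)]
    (rep : Equiv.Perm (((E₁ ⊕ E₂) × Lab) × Pl p) →* Matrix (Fin r) (Fin r) ℝ)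
    (v w : Fin r → ℝ) : (fun y : V → ZMod 2 => v ⬝ᵥ (rep (perm x p y) *ᵥ w)) ∈ Deg (6 * k) := by
  set ρ : Equiv.Perm (((E₁ ⊕ E₂) × Lab) × Pl p) →* Module.End ℝ (Fin r → ℝ) :=
    (Matrix.toLinAlgEquiv' : Matrix (Fin r) (Fin r) ℝ ≃ₐ[ℝ] _).toMonoidHom.comp rep with hρ
  have hρa : ∀ g w, ρ g w = rep g *ᵥ w := fun g w => rfl
  have hspan := span_fixed ρ (k := k) (by rw [Module.finrank_fin_fun]; exact hr)
  have hw : w ∈ Submodule.span ℝ {u : Fin r → ℝ | ∃ T, T.card ≤ 3 * k ∧ FixedOff ρ T u} := by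
    rw [hspan]; exact Submodule.mem_top
  refine Submodule.span_induction
    (p := fun w _ => (fun y : V → ZMod 2 => v ⬝ᵥ (rep (perm x p y) *ᵥ w)) ∈ Deg (6 * k))
    ?_ ?_ ?_ ?_ hw
  · rintro u ⟨T, hT, hu⟩
    refine junta_mem_Deg (U := vset x p T) ?_ ?_
    · have := card_vset x p T
      omega
    · intro y y' hyy'
      have h1 : ρ (perm x p y) u = ρ (perm x p y') u :=
        hu.eq_of_agree (fun z hz => perm_congr x p hyy' hz) (sign_perm' x y) (sign_perm' x y')
      rw [hρa, hρa] at h1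
      simp only [h1]
  · have : (fun y : V → ZMod 2 => v ⬝ᵥ (rep (perm x p y) *ᵥ (0 : Fin r → ℝ))) = 0 := by
      funext y; simp
    rw [this]; exact Submodule.zero_mem _
  · intro a b _ _ ha hb
    have : (fun y : V → ZMod 2 => v ⬝ᵥ (rep (perm x p y) *ᵥ (a + b))) =
        (fun y : V → ZMod 2 => v ⬝ᵥ (rep (perm x p y) *ᵥ a)) +
        (fun y : V → ZMod 2 => v ⬝ᵥ (rep (perm x p y) *ᵥ b)) := by
      funext y
      rw [Pi.add_apply, Matrix.mulVec_add, dotProduct_add]
    rw [this]; exact Submodule.add_mem _ ha hb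
  · intro c a _ ha
    have : (fun y : V → ZMod 2 => v ⬝ᵥ (rep (perm x p y) *ᵥ (c • a))) =
        c • (fun y : V → ZMod 2 => v ⬝ᵥ (rep (perm x p y) *ᵥ a)) := by
      funext y
      rw [Pi.smul_apply, Matrix.mulVec_smul, dotProduct_smul]
    rw [this]; exact Submodule.smul_mem _ _ ha

/-- the quadratic form of a conjugate of a sum of rank one matrices -/
lemma quad_conj {r m : ℕ} (R : Matrix (Fin r) (Fin r) ℝ) (v : Fin m → Fin r → ℝ)
    (z : Fin r → ℝ) : z ⬝ᵥ ((R * (∑ i, vecMulVec (v i) (v i)) * Rᵀ) *ᵥ z) =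
      ∑ i, (z ⬝ᵥ (R *ᵥ v i)) ^ 2 := by
  have h1 : R * (∑ i, vecMulVec (v i) (v i)) * Rᵀ =
      ∑ i, vecMulVec (R *ᵥ v i) (R *ᵥ v i) := by
    rw [Matrix.mul_sum, Matrix.sum_mul]
    refine sum_congr rfl (fun i _ => ?_)
    rw [Matrix.mul_vecMulVec, Matrix.vecMulVec_mul, Matrix.vecMul_transpose]
  rw [h1, Matrix.sum_mulVec, dotProduct_sum]
  refine sum_congr rfl (fun i _ => ?_)
  rw [Matrix.vecMulVec_mulVec]
  simp only [MulOpposite.smul_eq_mul_unop, dotProduct_smul, MulOpposite.unop_op]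
  rw [sq, dotProduct_comm (R *ᵥ v i) z]

end rep

section core
variable {V E₁ E₂ : Type} [Fintype V] [Fintype E₁] [Fintype E₂] {p : ℕ} [Fact p.Prime]
  {x : E₁ ⊕ E₂ → Fin 3 → V} {b : E₁ ⊕ E₂ → ZMod 2} {s D u : ℕ}

lemma expansion_eq {W : Type} [Fintype W] {G : SimpleGraph W} {d : ℕ} (hr : Regular G d)
    (hd : 1 ≤ d) {S : Finset W} (hS : 0 < S.card) :
    (expansion G d S : ℝ) = 1 - (inside G S : ℝ) / (d * S.card) := by
  have h1 : ((inside G S : ℝ)) + cut G S = d * S.card := by
    exact_mod_cast inside_add_cut hr S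
  have hd' : (0 : ℝ) < d := by exact_mod_cast hd
  have hS' : (0 : ℝ) < S.card := by exact_mod_cast hS
  unfold expansion
  push_cast
  rw [eq_sub_iff_add_eq, ← add_div, add_comm, h1, div_self (by positivity)]

/-- the pseudo-expectation of the expansion of the set of an assignment -/
theorem nu_expansion (hexp : Expands x s) (hs : 2 ≤ s)
    (h₁ : ∀ (e : E₁) (i j : Fin 3),
      (univ.filter (fun e' : E₁ => x (Sum.inl e') j = x (Sum.inl e) i)).card = D)
    (hp : ∀ q r, 2 * wgt x b u q r < p) (hE : 0 < Fintype.card E₁)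
    {hW : ∀ q r, wgt x b u q r = wgt x b u r q} {δ : ℕ}
    (hreg : Regular (blow p (wgt x b u) hW) (2 * (p - 1) * δ)) (hδ : 1 ≤ 2 * (p - 1) * δ) :
    ∑ y, nu x b s y * (expansion (blow p (wgt x b u) hW) (2 * (p - 1) * δ) (setOf x p y) : ℝ) =
      1 - ((9 * D + u : ℕ) : ℝ) / δ := by
  have hp0 : 0 < p := (Fact.out : p.Prime).pos
  have hp1 : 1 < p := (Fact.out : p.Prime).one_lt
  have hcard : ∀ y : V → ZMod 2, 0 < (setOf x p y).card := fun y => by
    rw [card_setOf]; positivity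
  have h2 : ∀ y : V → ZMod 2, nu x b s y *
      (expansion (blow p (wgt x b u) hW) (2 * (p - 1) * δ) (setOf x p y) : ℝ) =
      nu x b s y - nu x b s y * ((∑ q ∈ base x y, ∑ r ∈ base x y, wgt x b u q r : ℕ) : ℝ) *
        (1 / (δ * Fintype.card E₁)) := by
    intro y
    rw [expansion_eq hreg hδ (hcard y), card_setOf]
    have h3 : inside (blow p (wgt x b u) hW) (setOf x p y) =
        2 * (p - 1) * p ^ 2 * ∑ q ∈ base x y, ∑ r ∈ base x y, wgt x b u q r := by
      unfold setOf
      exact inside_blow_full hp _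
    rw [h3]
    push_cast
    have hpR : (0 : ℝ) < p := by exact_mod_cast hp0
    have hp1R : (0 : ℝ) < ((p - 1 : ℕ) : ℝ) := by
      exact_mod_cast Nat.sub_pos_of_lt hp1
    have hER : (0 : ℝ) < Fintype.card E₁ := by exact_mod_cast hE
    have hδR : (0 : ℝ) < δ := by
      have : 0 < δ := by
        rcases Nat.eq_zero_or_pos δ with h | h
        · rw [h] at hδ; omega
        · exact h
      exact_mod_cast this
    field_simp
  rw [sum_congr rfl (fun y _ => h2 y), sum_sub_distrib, sum_nu hexp, ← sum_mul,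
    nu_wgt h₁ hexp hs]
  have hER : (0 : ℝ) < Fintype.card E₁ := by exact_mod_cast hE
  congr 1
  push_cast
  field_simp

/-- The feasible solution of the Lasserre relaxation. -/
theorem lasserre_exists {k : ℕ} (hexp : Expands x s) (hk : 8 * k ≤ s) (G : SimpleGraph
    (((E₁ ⊕ E₂) × Lab) × Pl p)) (d : ℕ) :
    ∃ X : Finset (((E₁ ⊕ E₂) × Lab) × Pl p) → ℝ,
      Lasserre k ((Fintype.card E₁ * p ^ 2 : ℕ) : ℝ) X ∧
      pseudoExpansion G d ((Fintype.card E₁ * p ^ 2 : ℕ) : ℝ) X =
        ∑ y, nu x b s y * (expansion G d (setOf x p y) : ℝ) := by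
  refine ⟨fun T => ∑ y, nu x b s y * (if T ⊆ setOf x p y then (1 : ℝ) else 0),
    ⟨?_, ?_, ?_⟩, ?_⟩
  · simp only [empty_subset, if_true, mul_one]
    exact sum_nu hexp
  · intro c
    set F := univ.filter (fun S : Finset (((E₁ ⊕ E₂) × Lab) × Pl p) => S.card ≤ k) with hF
    have h1 : ∑ S ∈ F, ∑ T ∈ F, c S * c T * ∑ y, nu x b s y *
        (if S ∪ T ⊆ setOf x p y then (1 : ℝ) else 0) =
        ∑ y, nu x b s y * (∑ S ∈ F, c S * (if S ⊆ setOf x p y then (1 : ℝ) else 0)) ^ 2 := by
      have h2 : ∀ y : V → ZMod 2, nu x b s y *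
          (∑ S ∈ F, c S * (if S ⊆ setOf x p y then (1 : ℝ) else 0)) ^ 2 =
          ∑ S ∈ F, ∑ T ∈ F, c S * c T * (nu x b s y *
            (if S ∪ T ⊆ setOf x p y then (1 : ℝ) else 0)) := by
        intro y
        rw [sq, sum_mul_sum, mul_sum]
        refine sum_congr rfl (fun S _ => ?_)
        rw [mul_sum]
        refine sum_congr rfl (fun T _ => ?_)
        have : (if S ∪ T ⊆ setOf x p y then (1 : ℝ) else 0) =
            (if S ⊆ setOf x p y then (1 : ℝ) else 0) * (if T ⊆ setOf x p y then (1 : ℝ) else 0) := by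
          by_cases h : S ⊆ setOf x p y <;> by_cases h' : T ⊆ setOf x p y <;>
            simp [union_subset_iff, h, h']
        rw [this]
        ring
      rw [sum_congr rfl (fun y _ => h2 y)]
      symm
      rw [sum_comm]
      refine sum_congr rfl (fun S _ => ?_)
      rw [sum_comm]
      refine sum_congr rfl (fun T _ => ?_)
      rw [mul_sum]
    rw [h1]
    refine nu_sq_nonneg (m := 2 * k) hexp (by omega) ?_
    have h3 : (fun y : V → ZMod 2 => ∑ S ∈ F, c S * (if S ⊆ setOf x p y then (1 : ℝ) else 0)) =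
        ∑ S ∈ F, c S • (fun y : V → ZMod 2 => if S ⊆ setOf x p y then (1 : ℝ) else 0) := by
      funext y
      rw [Finset.sum_apply]
      rfl
    rw [h3]
    refine Submodule.sum_mem _ (fun S hS => Submodule.smul_mem _ _ ?_)
    refine junta_mem_Deg (U := vset x p S) ?_ ?_
    · have h4 := card_vset x p S
      have h5 := (mem_filter.1 hS).2
      omega
    · intro y y' hyy'
      have : S ⊆ setOf x p y ↔ S ⊆ setOf x p y' := by
        constructor
        · intro h v hv
          exact (mem_setOf_congr x p hyy' hv).1 (h hv)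
        · intro h v hv
          exact (mem_setOf_congr x p hyy' hv).2 (h hv)
      simp only [this]
  · intro T _
    rw [sum_comm, mul_sum]
    refine sum_congr rfl (fun y _ => ?_)
    have h1 : ∀ v, (if insert v T ⊆ setOf x p y then (1 : ℝ) else 0) =
        (if T ⊆ setOf x p y then (1 : ℝ) else 0) * (if v ∈ setOf x p y then 1 else 0) := by
      intro v
      simp only [insert_subset_iff]
      by_cases h : T ⊆ setOf x p y <;> by_cases h' : v ∈ setOf x p y <;> simp [h, h']
    rw [← mul_sum, sum_congr rfl (fun v _ => h1 v), ← mul_sum, sum_ite_mem, univ_inter, sum_const,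
      nsmul_eq_mul, mul_one, card_setOf]
    ring
  · unfold pseudoExpansion expansion
    simp only [card_setOf]
    have h1 : ∀ e : (((E₁ ⊕ E₂) × Lab) × Pl p) × (((E₁ ⊕ E₂) × Lab) × Pl p),
        (∑ y, nu x b s y * (if {e.1} ⊆ setOf x p y then (1 : ℝ) else 0)) -
        (∑ y, nu x b s y * (if {e.1, e.2} ⊆ setOf x p y then (1 : ℝ) else 0)) =
        ∑ y, nu x b s y * (if e.1 ∈ setOf x p y ∧ e.2 ∉ setOf x p y then (1 : ℝ) else 0) := by
      intro e
      rw [← sum_sub_distrib]
      refine sum_congr rfl (fun y _ => ?_)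
      rw [← mul_sub]
      congr 1
      simp only [singleton_subset_iff, insert_subset_iff]
      by_cases h : e.1 ∈ setOf x p y <;> by_cases h' : e.2 ∈ setOf x p y <;> simp [h, h']
    rw [sum_congr rfl (fun e _ => h1 e), sum_comm, sum_div]
    refine sum_congr rfl (fun y _ => ?_)
    rw [← mul_sum, mul_div_assoc]
    congr 1
    unfold cut
    push_cast
    congr 1
    rw [card_filter]
    push_cast
    rw [sum_filter]
    refine sum_congr rfl (fun e _ => ?_)
    by_cases h : G.Adj e.1 e.2 <;> by_cases h' : e.1 ∈ setOf x p y <;>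
      by_cases h'' : e.2 ∈ setOf x p y <;> simp [h, h', h'']

theorem lasserre_exists' {k : ℕ} (hexp : Expands x s) (hk : 8 * k ≤ s) (G : SimpleGraph
    (((E₁ ⊕ E₂) × Lab) × Pl p)) (d : ℕ) (inst : DecidableEq (((E₁ ⊕ E₂) × Lab) × Pl p)) :
    ∃ X : Finset (((E₁ ⊕ E₂) × Lab) × Pl p) → ℝ,
      @Lasserre _ _ inst k ((Fintype.card E₁ * p ^ 2 : ℕ) : ℝ) X ∧
      @pseudoExpansion _ _ inst G d ((Fintype.card E₁ * p ^ 2 : ℕ) : ℝ) X =
        ∑ y, nu x b s y * (expansion G d (setOf x p y) : ℝ) := by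
  have h : inst = (fun a b => instDecidableEqProd a b) := Subsingleton.elim _ _
  subst h
  exact lasserre_exists hexp hk G d

/-- The feasible solution of a small equivariant semidefinite relaxation. -/
theorem sdp_exists {δ : ℚ} {d k : ℕ} (hexp : Expands x s) (hk : 24 * k ≤ s)
    [Nonempty (((E₁ ⊕ E₂) × Lab) × Pl p)]
    (P : EquivariantSDP (((E₁ ⊕ E₂) × Lab) × Pl p) δ d) (hP : P.size < 2 ^ (k + 1))
    (hδ : ((Fintype.card E₁ * p ^ 2 : ℕ) : ℚ) = δ * Fintype.card (((E₁ ⊕ E₂) × Lab) × Pl p))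
    {G : SimpleGraph (((E₁ ⊕ E₂) × Lab) × Pl p)} (hG : Regular G d) :
    ∃ Y ∈ P.space, Y.PosSemidef ∧
      P.obj G Y = ∑ y, nu x b s y * (expansion G d (setOf x p y) : ℝ) := by
  have hcard : ∀ y : V → ZMod 2, ((setOf x p y).card : ℚ) =
      δ * Fintype.card (((E₁ ⊕ E₂) × Lab) × Pl p) := fun y => by rw [card_setOf]; exact hδ
  have hfeas := fun y : V → ZMod 2 => P.feasible (setOf x p y) (hcard y)
  have hnu : ∑ y ∈ (univ : Finset (V → ZMod 2)), nu x b s y = 1 := sum_nu hexp
  have hlin : univ.affineCombination ℝ (fun y => P.point (setOf x p y)) (nu x b s) =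
      ∑ y, nu x b s y • P.point (setOf x p y) :=
    affineCombination_eq_linear_combination _ _ _ hnu
  refine ⟨∑ y, nu x b s y • P.point (setOf x p y), ?_, ?_, ?_⟩
  · rw [← hlin]
    refine (affineSpan_le.2 ?_) (affineCombination_mem_affineSpan hnu _)
    rintro _ ⟨y, rfl⟩
    exact (hfeas y).1
  · refine Matrix.PosSemidef.of_dotProduct_mulVec_nonneg ?_ ?_
    · unfold Matrix.IsHermitian
      rw [Matrix.conjTranspose_sum]
      refine sum_congr rfl (fun y _ => ?_)
      rw [Matrix.conjTranspose_smul, (hfeas y).2.isHermitian]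
      simp
    · intro z
      obtain ⟨m, v, hv⟩ := Matrix.posSemidef_iff_eq_sum_vecMulVec.1 (hfeas 0).2
      have hv' : P.point (setOf x p 0) = ∑ i, vecMulVec (v i) (v i) := by
        rw [hv]
        refine sum_congr rfl (fun i _ => ?_)
        congr 1
      have hpt : ∀ y : V → ZMod 2, P.point (setOf x p y) =
          P.rep (perm x p y) * (∑ i, vecMulVec (v i) (v i)) * (P.rep (perm x p y))ᵀ := by
        intro y
        rw [setOf_eq_map, P.equivariant _ _ (hcard 0), hv']
      rw [show star z = z from rfl, Matrix.sum_mulVec, dotProduct_sum]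
      have h1 : ∀ y : V → ZMod 2, z ⬝ᵥ ((nu x b s y • P.point (setOf x p y)) *ᵥ z) =
          ∑ i, nu x b s y * (z ⬝ᵥ (P.rep (perm x p y) *ᵥ v i)) ^ 2 := by
        intro y
        rw [Matrix.smul_mulVec, dotProduct_smul, hpt y, quad_conj, smul_eq_mul, mul_sum]
      rw [sum_congr rfl (fun y _ => h1 y), sum_comm]
      refine sum_nonneg (fun i _ => ?_)
      exact nu_sq_nonneg (m := 6 * k) hexp (by omega) (coef_mem_Deg x hP P.rep z (v i))
  · rw [← hlin, univ.map_affineCombination (fun y => P.point (setOf x p y)) (nu x b s) hnu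
      (P.obj G), affineCombination_eq_linear_combination _ _ _ hnu]
    refine sum_congr rfl (fun y _ => ?_)
    rw [Function.comp_apply, P.exact G hG _ (hcard y), smul_eq_mul]

end core

end Pool.Agent.Lib.MP_8d8c46_lc.SOS
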