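import Pool.Agent.Lib.MP_8d8c46_lc.SOS.Rep

/-!
Even permutations that fix a set pointwise are products of 3-cycles outside of it.
-/

set_option autoImplicit false

open scoped Classical
open Equiv Module

namespace Pool.Agent.Lib.MP_8d8c46_lc.SOS

section
variable {V : Type*} [Fintype V] {M : Type*} [AddCommGroup M] [Module ℝ M]

lemma mem_closure_of_even {T : Finset V} {g : Perm V} (hg : ∀ x ∈ T, g x = x)
    (hs : Perm.sign g = 1) : g ∈ Subgroup.closure {σ : Perm V | ∃ a b c, a ∉ T ∧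
      b ∉ T ∧ c ∉ T ∧ a ≠ b ∧ a ≠ c ∧ b ≠ c ∧ σ = cyc a b c} := by
  set S : Set (Perm V) := {σ : Perm V | ∃ a b c, a ∉ T ∧
      b ∉ T ∧ c ∉ T ∧ a ≠ b ∧ a ≠ c ∧ b ≠ c ∧ σ = cyc a b c} with hS
  set p : V → Prop := fun v => v ∉ T with hp
  have h1 : ∀ x, p (g x) ↔ p x := by
    intro x
    rw [hp]
    simp only [not_iff_not]
    constructor
    · intro h
      have h2 := hg _ h
      rw [g.injective h2] at h
      exact h
    · intro h
      rw [hg x h]; exact h
  have h2 : ∀ x, g x ≠ x → p x := by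
    intro x hx hxT
    exact hx (hg x hxT)
  set g' : Perm (Subtype p) := g.subtypePerm h1 with hg'
  have h3 : Perm.ofSubtype g' = g := Perm.ofSubtype_subtypePerm h1 h2
  have h4 : Perm.sign g' = 1 := by
    rw [← hs, ← h3, Perm.sign_ofSubtype]
  have h5 : g' ∈ alternatingGroup (Subtype p) := Perm.mem_alternatingGroup.2 h4
  rw [← Perm.closure_three_cycles_eq_alternating] at h5
  rw [← h3]
  refine Subgroup.closure_induction
    (p := fun (τ : Perm (Subtype p)) _ => Perm.ofSubtype τ ∈ Subgroup.closure S) ?_ ?_ ?_ ?_ h5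
  · intro τ hτ
    have hτ' : τ.IsThreeCycle := hτ
    obtain ⟨a, ha⟩ : τ.support.Nonempty := by
      rw [← Finset.card_pos, hτ'.card_support]; norm_num
    have e1 := hτ'.eq_swap_mul_swap_iff_mem_support.2 ha
    have e2 := hτ'.nodup_iff_mem_support.2 ha
    have n1 : a ≠ τ a ∧ a ≠ τ (τ a) ∧ τ a ≠ τ (τ a) := by
      simp only [List.nodup_cons, List.mem_cons, List.not_mem_nil, or_false, not_or,
        not_false_eq_true, List.nodup_nil, and_true] at e2
      exact ⟨e2.1.1, e2.1.2, e2.2⟩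
    refine Subgroup.subset_closure ⟨(τ a : V), (a : V), (τ (τ a) : V), (τ a).2, a.2,
      (τ (τ a)).2, ?_, ?_, ?_, ?_⟩
    · exact fun h => n1.1 (Subtype.ext h).symm
    · exact fun h => n1.2.2 (Subtype.ext h)
    · exact fun h => n1.2.1 (Subtype.ext h)
    · have e3 : Perm.ofSubtype τ = Perm.ofSubtype (swap a (τ a) * swap (τ a) (τ (τ a))) :=
        congrArg _ e1
      rw [e3, map_mul, Perm.ofSubtype_swap_eq, Perm.ofSubtype_swap_eq]
      unfold cyc
      rw [swap_comm (a : V) (τ a : V)]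
  · rw [map_one]; exact Subgroup.one_mem _
  · intro τ τ' _ _ h h'
    rw [map_mul]; exact Subgroup.mul_mem _ h h'
  · intro τ _ h
    rw [map_inv]; exact Subgroup.inv_mem _ h

lemma FixedOff.even {ρ : Perm V →* Module.End ℝ M} {T : Finset V} {u : M} (h : FixedOff ρ T u)
    {g : Perm V} (hg : ∀ x ∈ T, g x = x) (hs : Perm.sign g = 1) : ρ g u = u :=
  h.closure (mem_closure_of_even hg hs)

lemma FixedOff.eq_of_agree {ρ : Perm V →* Module.End ℝ M} {T : Finset V} {u : M}
    (h : FixedOff ρ T u) {f g : Perm V} (hfg : ∀ x ∈ T, f x = g x) (hf : Perm.sign f = 1)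
    (hg : Perm.sign g = 1) : ρ f u = ρ g u := by
  have h1 : ρ (g⁻¹ * f) u = u := by
    refine h.even (fun x hx => ?_) ?_
    · rw [Perm.mul_apply, hfg x hx]
      exact g.symm_apply_apply x
    · rw [Perm.sign_mul, Perm.sign_inv, hf, hg, one_mul]
  calc ρ f u = ρ (g * (g⁻¹ * f)) u := by rw [mul_inv_cancel_left]
    _ = ρ g u := by rw [← rho_rho, h1]

end

end Pool.Agent.Lib.MP_8d8c46_lc.SOS
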