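import Pool.Agent.Lib.MP_8d8c46_lc.SOS.Pseudo

/-!
The signed measure of a system of equations with good expansion.
-/

set_option autoImplicit false

open scoped Classical
open Finset

namespace Pool.Agent.Lib.MP_8d8c46_lc.SOS

/-- A kernel with values in `{0, 1, -1}` which is multiplicative along its nonzero values is
positive semidefinite. -/
theorem psd_of_trans {ι : Type*} (S : Finset ι) (K : ι → ι → ℝ)
    (hsymm : ∀ A ∈ S, ∀ B ∈ S, K A B = K B A) (hdiag : ∀ A ∈ S, K A A = 1)
    (hsq : ∀ A ∈ S, ∀ B ∈ S, K A B ≠ 0 → K A B * K A B = 1)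
    (htrans : ∀ A ∈ S, ∀ B ∈ S, ∀ C ∈ S, K A B ≠ 0 → K B C ≠ 0 → K A C = K A B * K B C)
    (c : ι → ℝ) : 0 ≤ ∑ A ∈ S, ∑ B ∈ S, c A * c B * K A B := by
  set N : ι → ℝ := fun C => ∑ A ∈ S, K A C * K A C with hN
  have hNpos : ∀ C ∈ S, 0 < N C := by
    intro C hC
    refine lt_of_lt_of_le (by rw [hdiag C hC]; norm_num : 0 < K C C * K C C) ?_
    exact single_le_sum (f := fun A => K A C * K A C) (fun A _ => mul_self_nonneg _) hC
  have hNeq : ∀ A ∈ S, ∀ C ∈ S, K A C ≠ 0 → N C = N A := by
    intro A hA C hC hAC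
    refine sum_congr rfl (fun D hD => ?_)
    by_cases h : K D A = 0
    · have h' : K D C = 0 := by
        by_contra h'
        have hCA : K C A ≠ 0 := by rw [hsymm C hC A hA]; exact hAC
        have := htrans D hD C hC A hA h' hCA
        rw [h] at this
        exact (mul_ne_zero h' hCA) this.symm
      rw [h, h']
    · rw [htrans D hD A hA C hC h hAC]
      have := hsq A hA C hC hAC
      calc K D A * K A C * (K D A * K A C) = K D A * K D A * (K A C * K A C) := by ring
        _ = K D A * K D A := by rw [this, mul_one]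
  have key : ∀ A ∈ S, ∀ B ∈ S, K A B = ∑ C ∈ S, K A C * K B C / N C := by
    intro A hA B hB
    by_cases h : K A B = 0
    · rw [h]
      symm
      refine sum_eq_zero (fun C hC => ?_)
      have : K A C * K B C = 0 := by
        by_contra hne
        have h1 : K A C ≠ 0 := left_ne_zero_of_mul hne
        have h2 : K C B ≠ 0 := by
          rw [hsymm C hC B hB]; exact right_ne_zero_of_mul hne
        have := htrans A hA C hC B hB h1 h2
        rw [h] at this
        exact (mul_ne_zero h1 h2) this.symm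
      rw [this, zero_div]
    · have h1 : ∀ C ∈ S, K A C * K B C / N C = K A B / N A * (K C A * K C A) := by
        intro C hC
        by_cases h2 : K A C = 0
        · rw [h2, hsymm C hC A hA, h2]; simp
        · have hBA : K B A ≠ 0 := by rw [hsymm B hB A hA]; exact h
          rw [htrans B hB A hA C hC hBA h2, hNeq A hA C hC h2, hsymm B hB A hA, hsymm C hC A hA]
          ring
      rw [sum_congr rfl h1, ← mul_sum]
      have : ∑ C ∈ S, K C A * K C A = N A := rfl
      rw [this, div_mul_cancel₀ _ (hNpos A hA).ne']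
  have h2 : ∑ A ∈ S, ∑ B ∈ S, c A * c B * K A B =
      ∑ C ∈ S, (∑ A ∈ S, c A * K A C) ^ 2 / N C := by
    have h3 : ∀ A ∈ S, ∀ B ∈ S, c A * c B * K A B =
        ∑ C ∈ S, (c A * K A C) * (c B * K B C) / N C := by
      intro A hA B hB
      rw [key A hA B hB, mul_sum]
      exact sum_congr rfl (fun C _ => by ring)
    rw [sum_congr rfl (fun A hA => sum_congr rfl (fun B hB => h3 A hA B hB))]
    have h4 : ∀ A ∈ S, ∑ B ∈ S, ∑ C ∈ S, (c A * K A C) * (c B * K B C) / N C =
        ∑ C ∈ S, ∑ B ∈ S, (c A * K A C) * (c B * K B C) / N C := fun A _ => sum_comm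
    rw [sum_congr rfl h4, sum_comm]
    refine sum_congr rfl (fun C _ => ?_)
    rw [sq, sum_mul_sum, sum_div]
    exact sum_congr rfl (fun A _ => by rw [sum_div])
  rw [h2]
  exact sum_nonneg (fun C hC => div_nonneg (sq_nonneg _) (hNpos C hC).le)

section measure
variable {V E : Type*} [Fintype V] [Fintype E] (x : E → Fin 3 → V) (b : E → ZMod 2)

/-- the linear form of a combination of the equations -/
noncomputable def bdry (F : E → ZMod 2) : V → ZMod 2 :=
  fun v => ∑ e, ∑ i, if x e i = v then F e else 0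

/-- the right-hand side of a combination of the equations -/
def rhs (F : E → ZMod 2) : ZMod 2 := ∑ e, F e * b e

variable {x b}

omit [Fintype V] in
lemma bdry_add (F G : E → ZMod 2) : bdry x (F + G) = bdry x F + bdry x G := by
  funext v
  simp only [bdry, Pi.add_apply, ← sum_add_distrib]
  refine sum_congr rfl (fun e _ => sum_congr rfl (fun i _ => ?_))
  split_ifs <;> simp

lemma rhs_add (F G : E → ZMod 2) : rhs b (F + G) = rhs b F + rhs b G := by
  simp only [rhs, Pi.add_apply, ← sum_add_distrib, add_mul]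

omit [Fintype V] in
lemma bdry_eq_occ (F : E → ZMod 2) (v : V) : bdry x F v = (occ x (spt F) v : ZMod 2) := by
  have h1 : occ x (spt F) v = ∑ e ∈ spt F, ∑ i : Fin 3, if x e i = v then 1 else 0 := by
    unfold occ
    rw [card_filter, sum_product]
  rw [h1]
  push_cast
  unfold bdry
  rw [← sum_filter_add_sum_filter_not univ (fun e => F e ≠ 0)]
  have h2 : ∑ e ∈ univ.filter (fun e => ¬ F e ≠ 0), ∑ i, (if x e i = v then F e else 0) = 0 := by
    refine sum_eq_zero (fun e he => sum_eq_zero (fun i _ => ?_))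
    have : F e = 0 := by simpa using (mem_filter.1 he).2
    rw [this, ite_self]
  rw [h2, add_zero]
  refine sum_congr rfl (fun e he => sum_congr rfl (fun i _ => ?_))
  have : F e = 1 := (z2_cases (F e)).resolve_left (mem_spt.1 he)
  rw [this]

lemma card_le_of_expands {s : ℕ} (hexp : Expands x s) {F : E → ZMod 2}
    (hF : (spt F).card ≤ 2 * s) : (spt F).card ≤ 2 * (spt (bdry x F)).card := by
  by_contra hcon
  push Not at hcon
  obtain ⟨v, hv, hb⟩ := hexp (spt F) hF (spt (bdry x F)) hcon
  apply hv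
  rw [mem_spt, bdry_eq_occ]
  have h1 : occ x (spt F) v = 1 := hb
  rw [h1]
  decide

lemma spt_zero : spt (0 : V → ZMod 2) = ∅ := by
  ext v; simp [mem_spt]

lemma eq_of_bdry_eq {s : ℕ} (hexp : Expands x s) {F G : E → ZMod 2} (hF : (spt F).card ≤ s)
    (hG : (spt G).card ≤ s) (h : bdry x F = bdry x G) : F = G := by
  rw [← add_eq_zero_iff']
  have h1 : (spt (F + G)).card ≤ 2 * s := (card_spt_add F G).trans (by omega)
  have h2 := card_le_of_expands hexp h1
  rw [bdry_add, h, fn_add_self, spt_zero, card_empty, mul_zero, Nat.le_zero, card_eq_zero] at h2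
  funext e
  by_contra hne
  have : e ∈ spt (F + G) := mem_spt.2 hne
  rw [h2] at this
  exact notMem_empty e this

variable (x b) in
/-- the pseudo-expectations of the characters -/
noncomputable def pe (s : ℕ) (A : V → ZMod 2) : ℝ :=
  if h : ∃ F : E → ZMod 2, (spt F).card ≤ s ∧ bdry x F = A then sg (rhs b h.choose) else 0

lemma pe_bdry {s : ℕ} (hexp : Expands x s) {F : E → ZMod 2} (hF : (spt F).card ≤ s) :
    pe x b s (bdry x F) = sg (rhs b F) := by
  have h : ∃ G : E → ZMod 2, (spt G).card ≤ s ∧ bdry x G = bdry x F := ⟨F, hF, rfl⟩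
  unfold pe
  rw [dif_pos h, eq_of_bdry_eq hexp h.choose_spec.1 hF h.choose_spec.2]

lemma exists_of_pe_ne_zero {s : ℕ} {A : V → ZMod 2} (h : pe x b s A ≠ 0) :
    ∃ F : E → ZMod 2, (spt F).card ≤ s ∧ bdry x F = A := by
  by_contra hcon
  apply h
  unfold pe
  rw [dif_neg hcon]

lemma pe_zero {s : ℕ} (hexp : Expands x s) : pe x b s 0 = 1 := by
  have h0 : bdry x (0 : E → ZMod 2) = 0 := by funext v; simp [bdry]
  have hs : (spt (0 : E → ZMod 2)).card ≤ s := by
    rw [spt_zero, card_empty]; exact Nat.zero_le _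
  have := pe_bdry (b := b) hexp hs
  rw [h0] at this
  rw [this]
  simp [rhs, sg_zero]

lemma pe_add {s : ℕ} (hexp : Expands x s) {A B : V → ZMod 2} (hA : pe x b s A ≠ 0)
    (hB : pe x b s B ≠ 0) (hAB : 2 * (spt (A + B)).card ≤ s) :
    pe x b s (A + B) = pe x b s A * pe x b s B := by
  obtain ⟨F, hF, rfl⟩ := exists_of_pe_ne_zero hA
  obtain ⟨G, hG, rfl⟩ := exists_of_pe_ne_zero hB
  have h1 : (spt (F + G)).card ≤ 2 * s := (card_spt_add F G).trans (by omega)
  have h2 := card_le_of_expands hexp h1
  rw [bdry_add] at h2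
  rw [pe_bdry hexp hF, pe_bdry hexp hG, ← bdry_add, pe_bdry hexp (h2.trans hAB), rhs_add, sg_add]

lemma pe_sq {s : ℕ} {A : V → ZMod 2} (hA : pe x b s A ≠ 0) :
    pe x b s A * pe x b s A = 1 := by
  unfold pe at hA ⊢
  split_ifs with h
  · exact sg_mul_self _
  · rw [dif_neg h] at hA; exact absurd rfl hA

variable (x b) in
/-- the signed measure -/
noncomputable def nu (s : ℕ) (y : V → ZMod 2) : ℝ :=
  (∑ A, pe x b s A * ch A y) / 2 ^ Fintype.card V

lemma sum_nu_ch (s : ℕ) (A : V → ZMod 2) : ∑ y, nu x b s y * ch A y = pe x b s A := by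
  have hpos : (0 : ℝ) < 2 ^ Fintype.card V := by positivity
  have h1 : ∑ y, nu x b s y * ch A y =
      (∑ B, pe x b s B * ∑ y, ch B y * ch A y) / 2 ^ Fintype.card V := by
    unfold nu
    simp only [div_mul_eq_mul_div, sum_div, sum_mul, mul_sum]
    rw [sum_comm]
    refine sum_congr rfl (fun B _ => sum_congr rfl (fun y _ => ?_))
    ring
  rw [h1]
  simp only [sum_ch_mul]
  have h2 : ∀ B, pe x b s B * (if B = A then (2 : ℝ) ^ Fintype.card V else 0) =
      if B = A then pe x b s B * 2 ^ Fintype.card V else 0 := fun B => by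
    split_ifs <;> simp
  rw [sum_congr rfl (fun B _ => h2 B), sum_ite_eq' univ A, if_pos (mem_univ _)]
  field_simp

lemma sum_nu {s : ℕ} (hexp : Expands x s) : ∑ y, nu x b s y = 1 := by
  have := sum_nu_ch (x := x) (b := b) s 0
  rw [pe_zero hexp] at this
  simpa only [ch_zero, mul_one] using this

/-- positivity on squares of functions of low degree -/
theorem nu_sq_nonneg {s m : ℕ} (hexp : Expands x s) (hm : 4 * m ≤ s) {f : (V → ZMod 2) → ℝ}
    (hf : f ∈ Deg m) : 0 ≤ ∑ y, nu x b s y * f y ^ 2 := by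
  set S : Finset (V → ZMod 2) := univ.filter (fun A => (spt A).card ≤ m) with hS
  have hfc : ∀ A, A ∉ S → fc f A = 0 := by
    intro A hA
    have : m < (spt A).card := by
      by_contra h
      exact hA (mem_filter.2 ⟨mem_univ _, by omega⟩)
    unfold fc
    rw [mem_Deg.1 hf A this, zero_div]
  have hf' : ∀ y, f y = ∑ A ∈ S, fc f A * ch A y := by
    intro y
    rw [fourier f y]
    symm
    refine sum_subset (subset_univ S) (fun A _ hA => ?_)
    rw [hfc A hA, zero_mul]
  have h1 : ∑ y, nu x b s y * f y ^ 2 =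
      ∑ A ∈ S, ∑ B ∈ S, fc f A * fc f B * pe x b s (A + B) := by
    have h2 : ∀ y, nu x b s y * f y ^ 2 = ∑ A ∈ S, ∑ B ∈ S,
        fc f A * fc f B * (nu x b s y * ch (A + B) y) := by
      intro y
      rw [hf' y, sq, sum_mul_sum, mul_sum]
      refine sum_congr rfl (fun A _ => ?_)
      rw [mul_sum]
      refine sum_congr rfl (fun B _ => ?_)
      rw [ch_add_left]
      ring
    rw [sum_congr rfl (fun y _ => h2 y), sum_comm]
    refine sum_congr rfl (fun A _ => ?_)
    rw [sum_comm]
    refine sum_congr rfl (fun B _ => ?_)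
    rw [← mul_sum, sum_nu_ch]
  rw [h1]
  refine psd_of_trans S (fun A B => pe x b s (A + B)) ?_ ?_ ?_ ?_ (fc f)
  · intro A _ B _
    simp only [add_comm]
  · intro A _
    simp only [fn_add_self]
    exact pe_zero hexp
  · intro A _ B _ h
    exact pe_sq h
  · intro A hA B hB C hC h1 h2
    have e : A + C = (A + B) + (B + C) := by
      have : A + B + (B + C) = A + C + (B + B) := by abel
      rw [this, fn_add_self, add_zero]
    have hc : (spt (A + C)).card ≤ 2 * m := by
      have a1 := (mem_filter.1 hA).2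
      have a2 := (mem_filter.1 hC).2
      have := card_spt_add A C
      omega
    show pe x b s (A + C) = _
    rw [e]
    refine pe_add hexp h1 h2 ?_
    rw [← e]
    omega

/-- the measure believes in the equations -/
theorem nu_equation {s : ℕ} (hexp : Expands x s) {F : E → ZMod 2} (hF : (spt F).card ≤ s) :
    ∑ y, nu x b s y * sg (∑ e, F e * (b e + ∑ i, y (x e i))) = 1 := by
  have h1 : ∀ y : V → ZMod 2, sg (∑ e, F e * (b e + ∑ i, y (x e i))) =
      sg (rhs b F) * ch (bdry x F) y := by
    intro y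
    unfold ch
    rw [← sg_add]
    congr 1
    have h2 : ∑ v, bdry x F v * y v = ∑ e, F e * ∑ i, y (x e i) := by
      unfold bdry
      simp only [sum_mul, mul_sum]
      rw [sum_comm]
      refine sum_congr rfl (fun e _ => ?_)
      rw [sum_comm]
      refine sum_congr rfl (fun i _ => ?_)
      have : ∀ v, (if x e i = v then F e else 0) * y v = if x e i = v then F e * y v else 0 :=
        fun v => by split_ifs <;> simp
      rw [sum_congr rfl (fun v _ => this v), sum_ite_eq, if_pos (mem_univ _)]
    rw [h2]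
    unfold rhs
    rw [← sum_add_distrib]
    exact sum_congr rfl (fun e _ => by rw [mul_add])
  have h2 : ∀ y : V → ZMod 2, nu x b s y * sg (∑ e, F e * (b e + ∑ i, y (x e i))) =
      sg (rhs b F) * (nu x b s y * ch (bdry x F) y) := fun y => by rw [h1]; ring
  rw [sum_congr rfl (fun y _ => h2 y), ← mul_sum, sum_nu_ch, pe_bdry hexp hF, sg_mul_self]

end measure

end Pool.Agent.Lib.MP_8d8c46_lc.SOS
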