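import Pool.Agent.Lib.MP_8d8c46_lc.Mg.G015

/-!
A signed measure on the assignments of a system of equations over `ZMod 2` which is positive on
squares of functions of low degree and believes that all equations are satisfied.
-/

set_option autoImplicit false

open scoped Classical
open Finset

namespace Pool.Agent.Lib.MP_8d8c46_lc.SOS

/-- the sign of an element of `ZMod 2` -/
noncomputable def sg (t : ZMod 2) : ℝ := if t = 0 then 1 else -1

lemma sg_zero : sg 0 = 1 := if_pos rfl

lemma z2_cases (t : ZMod 2) : t = 0 ∨ t = 1 := by revert t; decide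

lemma sg_one : sg 1 = -1 := if_neg (by decide)

lemma sg_add (s t : ZMod 2) : sg (s + t) = sg s * sg t := by
  rcases z2_cases s with rfl | rfl <;> rcases z2_cases t with rfl | rfl
  · simp [sg_zero]
  · simp [sg_zero]
  · simp [sg_zero]
  · rw [show (1 : ZMod 2) + 1 = 0 by decide, sg_zero, sg_one]; norm_num

lemma sg_mul_self (t : ZMod 2) : sg t * sg t = 1 := by
  rw [← sg_add, CharTwo.add_self_eq_zero, sg_zero]

lemma sg_ne_zero (t : ZMod 2) : sg t ≠ 0 := by
  intro h
  have := sg_mul_self t
  rw [h] at this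
  norm_num at this

/-- the indicator function of `t = 0` -/
lemma ind_eq_sg (t : ZMod 2) : (if t = 0 then (1 : ℝ) else 0) = (1 + sg t) / 2 := by
  rcases z2_cases t with rfl | rfl
  · rw [if_pos rfl, sg_zero]; norm_num
  · rw [if_neg (by decide), sg_one]; norm_num

lemma fn_add_self {V : Type*} (A : V → ZMod 2) : A + A = 0 := by
  funext v
  exact CharTwo.add_self_eq_zero (A v)

lemma add_eq_zero_iff' {V : Type*} (A B : V → ZMod 2) : A + B = 0 ↔ A = B := by
  constructor
  · intro h
    have h2 : A + B + B = B := by rw [h, zero_add]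
    rwa [add_assoc, fn_add_self, add_zero] at h2
  · rintro rfl
    exact fn_add_self A

section chars
variable {V : Type*} [Fintype V]

/-- the characters of `V → ZMod 2` -/
noncomputable def ch (A x : V → ZMod 2) : ℝ := sg (∑ v, A v * x v)

lemma ch_add_left (A B x : V → ZMod 2) : ch (A + B) x = ch A x * ch B x := by
  unfold ch
  rw [← sg_add, ← sum_add_distrib]
  congr 1
  exact sum_congr rfl (fun v _ => by rw [Pi.add_apply, add_mul])

lemma ch_add_right (A x y : V → ZMod 2) : ch A (x + y) = ch A x * ch A y := by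
  unfold ch
  rw [← sg_add, ← sum_add_distrib]
  congr 1
  exact sum_congr rfl (fun v _ => by rw [Pi.add_apply, mul_add])

lemma ch_comm (A x : V → ZMod 2) : ch A x = ch x A := by
  unfold ch
  congr 1
  exact sum_congr rfl (fun v _ => mul_comm _ _)

lemma ch_zero (x : V → ZMod 2) : ch 0 x = 1 := by
  unfold ch
  simp [sg_zero]

lemma ch_single (v : V) (x : V → ZMod 2) : ch (Pi.single v 1) x = sg (x v) := by
  unfold ch
  congr 1
  rw [sum_eq_single v]
  · rw [Pi.single_eq_same, one_mul]
  · intro u _ hu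
    rw [Pi.single_eq_of_ne hu, zero_mul]
  · intro h; exact absurd (mem_univ v) h

lemma sum_shift (g : (V → ZMod 2) → ℝ) (c : V → ZMod 2) : ∑ x, g x = ∑ x, g (x + c) :=
  (Equiv.sum_comp (Equiv.addRight c) g).symm

lemma sum_ch (A : V → ZMod 2) : ∑ x, ch A x = if A = 0 then (2 : ℝ) ^ Fintype.card V else 0 := by
  by_cases h : A = 0
  · rw [if_pos h, h]
    have hc : Fintype.card (V → ZMod 2) = 2 ^ Fintype.card V := by
      rw [Fintype.card_fun, ZMod.card]
    rw [sum_congr rfl (fun x _ => ch_zero x), sum_const, card_univ, hc, nsmul_eq_mul, mul_one,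
      Nat.cast_pow, Nat.cast_ofNat]
  · rw [if_neg h]
    obtain ⟨v, hv⟩ := Function.ne_iff.1 h
    have hv1 : A v = 1 := (z2_cases (A v)).resolve_left hv
    have h1 : ∑ x, ch A x = ∑ x, ch A (x + Pi.single v 1) :=
      sum_shift (fun x => ch A x) (Pi.single v 1)
    have h2 : ∀ x, ch A (x + Pi.single v 1) = - ch A x := by
      intro x
      rw [ch_add_right, ch_comm A (Pi.single v 1), ch_single, hv1, sg_one]
      ring
    rw [sum_congr rfl (fun x _ => h2 x), sum_neg_distrib] at h1
    linarith

lemma sum_ch_mul (A B : V → ZMod 2) :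
    ∑ x, ch A x * ch B x = if A = B then (2 : ℝ) ^ Fintype.card V else 0 := by
  simp only [← ch_add_left]
  rw [sum_ch]
  by_cases h : A = B
  · rw [if_pos h, if_pos ((add_eq_zero_iff' A B).2 h)]
  · rw [if_neg h, if_neg (fun h' => h ((add_eq_zero_iff' A B).1 h'))]

/-- the Fourier coefficients -/
noncomputable def fc (f : (V → ZMod 2) → ℝ) (A : V → ZMod 2) : ℝ :=
  (∑ x, f x * ch A x) / 2 ^ Fintype.card V

lemma fourier (f : (V → ZMod 2) → ℝ) (x : V → ZMod 2) : f x = ∑ A, fc f A * ch A x := by
  have hpos : (0 : ℝ) < 2 ^ Fintype.card V := by positivity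
  have h1 : ∑ A, fc f A * ch A x = (∑ y, f y * ∑ A, ch y A * ch x A) / 2 ^ Fintype.card V := by
    unfold fc
    simp only [div_mul_eq_mul_div, sum_div, sum_mul, mul_sum]
    rw [sum_comm]
    refine sum_congr rfl (fun y _ => sum_congr rfl (fun A _ => ?_))
    rw [ch_comm A y, ch_comm A x]
    ring
  rw [h1]
  simp only [sum_ch_mul]
  have h2 : ∀ y, f y * (if y = x then (2 : ℝ) ^ Fintype.card V else 0) =
      if y = x then f y * 2 ^ Fintype.card V else 0 := fun y => by
    split_ifs <;> simp
  rw [sum_congr rfl (fun y _ => h2 y), sum_ite_eq' univ x, if_pos (mem_univ _)]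
  field_simp

/-- the support of `A` -/
noncomputable def spt (A : V → ZMod 2) : Finset V := univ.filter (fun v => A v ≠ 0)

lemma mem_spt {A : V → ZMod 2} {v : V} : v ∈ spt A ↔ A v ≠ 0 := by simp [spt]

lemma card_spt_add (A B : V → ZMod 2) : (spt (A + B)).card ≤ (spt A).card + (spt B).card := by
  refine (card_le_card ?_).trans (card_union_le _ _)
  intro v hv
  rw [mem_union, mem_spt, mem_spt]
  rw [mem_spt] at hv
  by_contra hcon
  push Not at hcon
  exact hv (by rw [Pi.add_apply, hcon.1, hcon.2, add_zero])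

/-- functions of degree at most `m` -/
def Deg (m : ℕ) : Submodule ℝ ((V → ZMod 2) → ℝ) where
  carrier := {f | ∀ A, m < (spt A).card → ∑ x, f x * ch A x = 0}
  add_mem' := by
    intro f g hf hg A hA
    simp only [Pi.add_apply, add_mul, sum_add_distrib, hf A hA, hg A hA, add_zero]
  zero_mem' := by intro A _; simp
  smul_mem' := by
    intro r f hf A hA
    simp only [Pi.smul_apply, smul_eq_mul, mul_assoc]
    rw [← mul_sum, hf A hA, mul_zero]

lemma mem_Deg {m : ℕ} {f : (V → ZMod 2) → ℝ} :
    f ∈ Deg m ↔ ∀ A, m < (spt A).card → ∑ x, f x * ch A x = 0 := Iff.rfl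

lemma junta_mem_Deg {m : ℕ} {f : (V → ZMod 2) → ℝ} {U : Finset V} (hU : U.card ≤ m)
    (hf : ∀ x y, (∀ v ∈ U, x v = y v) → f x = f y) : f ∈ Deg m := by
  intro A hA
  obtain ⟨v, hv, hvU⟩ : ∃ v ∈ spt A, v ∉ U := by
    by_contra hcon
    push Not at hcon
    have := card_le_card (show spt A ⊆ U from hcon)
    omega
  have hv1 : A v = 1 := (z2_cases (A v)).resolve_left (mem_spt.1 hv)
  have h1 : ∑ x, f x * ch A x = ∑ x, f (x + Pi.single v 1) * ch A (x + Pi.single v 1) :=
    sum_shift (fun x => f x * ch A x) (Pi.single v 1)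
  have h2 : ∀ x, f (x + Pi.single v 1) * ch A (x + Pi.single v 1) = - (f x * ch A x) := by
    intro x
    rw [ch_add_right, ch_comm A (Pi.single v 1), ch_single, hv1, sg_one,
      hf (x + Pi.single v 1) x]
    · ring
    · intro u hu
      have : u ≠ v := fun h => hvU (h ▸ hu)
      rw [Pi.add_apply, Pi.single_eq_of_ne this, add_zero]
  rw [sum_congr rfl (fun x _ => h2 x), sum_neg_distrib] at h1
  linarith

end chars

end Pool.Agent.Lib.MP_8d8c46_lc.SOS
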