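import Mathlib

/-!
Small real representations of symmetric groups are spanned by vectors which are fixed by all even
permutations outside of a small set.
-/

set_option autoImplicit false

open scoped Classical
open Equiv Module

namespace Pool.Agent.Lib.MP_8d8c46_lc.SOS

section dim
variable {M : Type*} [AddCommGroup M] [Module ℝ M] [FiniteDimensional ℝ M]

/-- A nonzero space with `w` commuting pairs of an involution `t i` and an injective map `D i` that
anticommutes with it has dimension at least `2 ^ w`. -/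
theorem two_pow_le (t D : ℕ → Module.End ℝ M) : ∀ (w : ℕ) (N : Submodule ℝ M), N ≠ ⊥ →
    (∀ i < w, ∀ v ∈ N, t i v ∈ N) → (∀ i < w, ∀ v ∈ N, D i v ∈ N) →
    (∀ i < w, ∀ v ∈ N, t i (t i v) = v) → (∀ i < w, ∀ v ∈ N, D i v = 0 → v = 0) →
    (∀ i < w, ∀ v ∈ N, t i (D i v) = - D i (t i v)) →
    (∀ i < w, ∀ j < w, i ≠ j → ∀ v ∈ N, t i (t j v) = t j (t i v)) →
    (∀ i < w, ∀ j < w, i ≠ j → ∀ v ∈ N, t i (D j v) = D j (t i v)) →
    2 ^ w ≤ finrank ℝ N := by
  intro w
  induction w with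
  | zero =>
    intro N hN _ _ _ _ _ _ _
    have : Nontrivial N := (Submodule.nontrivial_iff_ne_bot).2 hN
    have := Module.finrank_pos (R := ℝ) (M := N)
    rw [pow_zero]
    exact this
  | succ w ih =>
    intro N hN ht hD htt hinj hanti htcomm hDcomm
    -- the eigenspaces of the last involution
    have hw : w < w + 1 := Nat.lt_succ_self w
    set P : Submodule ℝ M := N ⊓ LinearMap.ker (t w - 1) with hP
    set Q : Submodule ℝ M := N ⊓ LinearMap.ker (t w + 1) with hQ
    have memP : ∀ v, v ∈ P ↔ v ∈ N ∧ t w v = v := by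
      intro v
      rw [hP, Submodule.mem_inf, LinearMap.mem_ker, LinearMap.sub_apply, Module.End.one_apply,
        sub_eq_zero]
    have memQ : ∀ v, v ∈ Q ↔ v ∈ N ∧ t w v = -v := by
      intro v
      rw [hQ, Submodule.mem_inf, LinearMap.mem_ker, LinearMap.add_apply, Module.End.one_apply,
        add_eq_zero_iff_eq_neg]
    have hPQ : ∀ v ∈ P, D w v ∈ Q := by
      intro v hv
      obtain ⟨h1, h2⟩ := (memP v).1 hv
      rw [memQ]
      exact ⟨hD w hw v h1, by rw [hanti w hw v h1, h2]⟩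
    have hQP : ∀ v ∈ Q, D w v ∈ P := by
      intro v hv
      obtain ⟨h1, h2⟩ := (memQ v).1 hv
      rw [memP]
      exact ⟨hD w hw v h1, by rw [hanti w hw v h1, h2, map_neg, neg_neg]⟩
    have hne : P ≠ ⊥ ∧ Q ≠ ⊥ := by
      obtain ⟨v, hv, hv0⟩ := (Submodule.ne_bot_iff N).1 hN
      have hp : v + t w v ∈ P := by
        rw [memP]
        exact ⟨N.add_mem hv (ht w hw v hv), by rw [map_add, htt w hw v hv, add_comm]⟩
      have hq : v - t w v ∈ Q := by
        rw [memQ]
        exact ⟨N.sub_mem hv (ht w hw v hv), by rw [map_sub, htt w hw v hv, neg_sub]⟩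
      by_cases h : v + t w v = 0
      · have h' : v - t w v ≠ 0 := by
          intro h''
          apply hv0
          have : (2 : ℝ) • v = 0 := by
            calc (2 : ℝ) • v = (v + t w v) + (v - t w v) := by rw [two_smul]; abel
              _ = 0 := by rw [h, h'', add_zero]
          exact (smul_eq_zero.1 this).resolve_left (by norm_num)
        refine ⟨?_, ?_⟩
        · rw [Submodule.ne_bot_iff]
          exact ⟨_, hQP _ hq, fun h0 => h' (hinj w hw _ ((memQ _).1 hq).1 h0)⟩
        · rw [Submodule.ne_bot_iff]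
          exact ⟨_, hq, h'⟩
      · refine ⟨?_, ?_⟩
        · rw [Submodule.ne_bot_iff]
          exact ⟨_, hp, h⟩
        · rw [Submodule.ne_bot_iff]
          exact ⟨_, hPQ _ hp, fun h0 => h (hinj w hw _ ((memP _).1 hp).1 h0)⟩
    have h1 : 2 ^ w ≤ finrank ℝ P := by
      refine ih P hne.1 ?_ ?_ ?_ ?_ ?_ ?_ ?_
      · intro i hi v hv
        obtain ⟨h1, h2⟩ := (memP v).1 hv
        rw [memP]
        refine ⟨ht i (by omega) v h1, ?_⟩
        rw [htcomm w hw i (by omega) (by omega) v h1, h2]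
      · intro i hi v hv
        obtain ⟨h1, h2⟩ := (memP v).1 hv
        rw [memP]
        refine ⟨hD i (by omega) v h1, ?_⟩
        rw [hDcomm w hw i (by omega) (by omega) v h1, h2]
      · exact fun i hi v hv => htt i (by omega) v ((memP v).1 hv).1
      · exact fun i hi v hv => hinj i (by omega) v ((memP v).1 hv).1
      · exact fun i hi v hv => hanti i (by omega) v ((memP v).1 hv).1
      · exact fun i hi j hj hij v hv => htcomm i (by omega) j (by omega) hij v ((memP v).1 hv).1
      · exact fun i hi j hj hij v hv => hDcomm i (by omega) j (by omega) hij v ((memP v).1 hv).1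
    have h2 : 2 ^ w ≤ finrank ℝ Q := by
      refine ih Q hne.2 ?_ ?_ ?_ ?_ ?_ ?_ ?_
      · intro i hi v hv
        obtain ⟨h1, h2⟩ := (memQ v).1 hv
        rw [memQ]
        refine ⟨ht i (by omega) v h1, ?_⟩
        rw [htcomm w hw i (by omega) (by omega) v h1, h2, map_neg]
      · intro i hi v hv
        obtain ⟨h1, h2⟩ := (memQ v).1 hv
        rw [memQ]
        refine ⟨hD i (by omega) v h1, ?_⟩
        rw [hDcomm w hw i (by omega) (by omega) v h1, h2, map_neg]
      · exact fun i hi v hv => htt i (by omega) v ((memQ v).1 hv).1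
      · exact fun i hi v hv => hinj i (by omega) v ((memQ v).1 hv).1
      · exact fun i hi v hv => hanti i (by omega) v ((memQ v).1 hv).1
      · exact fun i hi j hj hij v hv => htcomm i (by omega) j (by omega) hij v ((memQ v).1 hv).1
      · exact fun i hi j hj hij v hv => hDcomm i (by omega) j (by omega) hij v ((memQ v).1 hv).1
    have h3 : P ⊓ Q = ⊥ := by
      rw [Submodule.eq_bot_iff]
      intro v hv
      obtain ⟨hv1, hv2⟩ := Submodule.mem_inf.1 hv
      have e1 := ((memP v).1 hv1).2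
      have e2 := ((memQ v).1 hv2).2
      have : (2 : ℝ) • v = 0 := by
        calc (2 : ℝ) • v = v + v := two_smul _ _
          _ = t w v - t w v := by rw [sub_eq_add_neg]; nth_rewrite 2 [e2]; rw [neg_neg, e1]
          _ = 0 := sub_self _
      exact (smul_eq_zero.1 this).resolve_left (by norm_num)
    have h4 : finrank ℝ (P ⊔ Q : Submodule ℝ M) + finrank ℝ (P ⊓ Q : Submodule ℝ M) =
        finrank ℝ P + finrank ℝ Q := Submodule.finrank_sup_add_finrank_inf_eq P Q
    rw [h3, finrank_bot, add_zero] at h4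
    have h5 : finrank ℝ (P ⊔ Q : Submodule ℝ M) ≤ finrank ℝ N :=
      Submodule.finrank_mono (sup_le inf_le_left inf_le_left)
    rw [pow_succ]
    omega

end dim

section rep
variable {V : Type*} {M : Type*} [AddCommGroup M] [Module ℝ M]

/-- the 3-cycle `a → c → b → a` -/
noncomputable def cyc (a b c : V) : Perm V := swap a b * swap a c

lemma cyc_mul_swap (a b c : V) : swap a b * cyc a b c * swap a b = (cyc a b c)⁻¹ := by
  unfold cyc
  rw [mul_inv_rev, swap_inv, swap_inv, ← mul_assoc, swap_mul_self, one_mul]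

lemma cyc_pow [Fintype V] {a b c : V} (hab : a ≠ b) (hac : a ≠ c) (hbc : b ≠ c) :
    cyc a b c * cyc a b c = (cyc a b c)⁻¹ := by
  have h := (Equiv.Perm.isThreeCycle_swap_mul_swap_same hab hac hbc).orderOf
  have h3 : (cyc a b c) ^ 3 = 1 := by
    rw [← h]; exact pow_orderOf_eq_one _
  rw [eq_inv_iff_mul_eq_one, ← h3, pow_succ, pow_two]

/-- `u` is fixed by the 3-cycles which fix `T` pointwise -/
def FixedOff (ρ : Perm V →* Module.End ℝ M) (T : Finset V) (u : M) : Prop :=
  ∀ a b c, a ∉ T → b ∉ T → c ∉ T → a ≠ b → a ≠ c → b ≠ c → ρ (cyc a b c) u = u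

lemma cyc_apply_of_ne {a b c x : V} (ha : x ≠ a) (hb : x ≠ b) (hc : x ≠ c) :
    cyc a b c x = x := by
  unfold cyc
  rw [Perm.mul_apply, swap_apply_of_ne_of_ne ha hc, swap_apply_of_ne_of_ne ha hb]

/-- the points of the first `w` triples -/
noncomputable def pts (a b c : ℕ → V) (w : ℕ) : Finset V :=
  (Finset.range w).biUnion (fun i => {a i, b i, c i})

lemma card_pts (a b c : ℕ → V) (w : ℕ) : (pts a b c w).card ≤ 3 * w := by
  unfold pts
  refine (Finset.card_biUnion_le_card_mul _ _ 3 (fun i _ => Finset.card_le_three)).trans ?_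
  rw [Finset.card_range, mul_comm]

/-- the triples are disjoint and have distinct entries -/
def Dis (a b c : ℕ → V) (w : ℕ) : Prop :=
  (∀ i < w, a i ≠ b i ∧ a i ≠ c i ∧ b i ≠ c i) ∧
  ∀ i < w, ∀ j < w, i ≠ j → Disjoint ({a i, b i, c i} : Finset V) {a j, b j, c j}

lemma rho_rho (ρ : Perm V →* Module.End ℝ M) (f g : Perm V) (v : M) :
    ρ f (ρ g v) = ρ (f * g) v := by
  rw [map_mul, Module.End.mul_apply]

lemma comm_of_supp {A B : Finset V} (hAB : Disjoint A B) {f g : Perm V}
    (hf : ∀ x, x ∉ A → f x = x) (hg : ∀ x, x ∉ B → g x = x) : f * g = g * f := by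
  have : Equiv.Perm.Disjoint f g := by
    intro x
    by_cases hx : x ∈ A
    · exact Or.inr (hg x (Finset.disjoint_left.1 hAB hx))
    · exact Or.inl (hf x hx)
  exact this.commute

lemma swap_supp (a b c : V) : ∀ x, x ∉ ({a, b, c} : Finset V) → swap a b x = x := by
  intro x hx
  simp only [Finset.mem_insert, Finset.mem_singleton, not_or] at hx
  exact swap_apply_of_ne_of_ne hx.1 hx.2.1

lemma cyc_supp (a b c : V) : ∀ x, x ∉ ({a, b, c} : Finset V) → cyc a b c x = x := by
  intro x hx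
  simp only [Finset.mem_insert, Finset.mem_singleton, not_or] at hx
  exact cyc_apply_of_ne hx.1 hx.2.1 hx.2.2

lemma inv_supp {A : Finset V} {f : Perm V} (hf : ∀ x, x ∉ A → f x = x) :
    ∀ x, x ∉ A → f⁻¹ x = x := by
  intro x hx
  rw [Equiv.Perm.inv_eq_iff_eq]
  exact (hf x hx).symm

variable [Fintype V] [FiniteDimensional ℝ M]

/-- the vectors of `N` on which the sums over the cyclic groups of the first `w` triples vanish -/
noncomputable def sub (ρ : Perm V →* Module.End ℝ M) (N : Submodule ℝ M) (a b c : ℕ → V) (w : ℕ) :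
    Submodule ℝ M where
  carrier := {v | v ∈ N ∧ ∀ i < w, v + ρ (cyc (a i) (b i) (c i)) v +
    ρ (cyc (a i) (b i) (c i))⁻¹ v = 0}
  add_mem' := by
    rintro x y ⟨hx, hx'⟩ ⟨hy, hy'⟩
    refine ⟨N.add_mem hx hy, fun i hi => ?_⟩
    rw [map_add, map_add]
    have := congrArg₂ (· + ·) (hx' i hi) (hy' i hi)
    simp only [add_zero] at this
    rw [← this]; abel
  zero_mem' := ⟨N.zero_mem, fun i _ => by simp⟩
  smul_mem' := by
    rintro r x ⟨hx, hx'⟩
    refine ⟨N.smul_mem r hx, fun i hi => ?_⟩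
    rw [map_smul, map_smul, ← smul_add, ← smul_add, hx' i hi, smul_zero]

omit [Fintype V] [FiniteDimensional ℝ M] in
lemma mem_sub {ρ : Perm V →* Module.End ℝ M} {N : Submodule ℝ M} {a b c : ℕ → V} {w : ℕ} {v : M} :
    v ∈ sub ρ N a b c w ↔ v ∈ N ∧ ∀ i < w, v + ρ (cyc (a i) (b i) (c i)) v +
    ρ (cyc (a i) (b i) (c i))⁻¹ v = 0 := Iff.rfl

theorem two_pow_le_sub {ρ : Perm V →* Module.End ℝ M} {N : Submodule ℝ M}
    (hN : ∀ σ, ∀ v ∈ N, ρ σ v ∈ N) {a b c : ℕ → V} {w : ℕ} (hdis : Dis a b c w)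
    (hne : sub ρ N a b c w ≠ ⊥) : 2 ^ w ≤ finrank ℝ N := by
  have hle : finrank ℝ (sub ρ N a b c w) ≤ finrank ℝ N :=
    Submodule.finrank_mono (fun v hv => (mem_sub.1 hv).1)
  refine le_trans ?_ hle
  have comm1 : ∀ i < w, ∀ j < w, i ≠ j → swap (a i) (b i) * cyc (a j) (b j) (c j) =
      cyc (a j) (b j) (c j) * swap (a i) (b i) := fun i hi j hj hij =>
    comm_of_supp (hdis.2 i hi j hj hij) (swap_supp _ _ _) (cyc_supp _ _ _)
  have comm1' : ∀ i < w, ∀ j < w, i ≠ j → swap (a i) (b i) * (cyc (a j) (b j) (c j))⁻¹ =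
      (cyc (a j) (b j) (c j))⁻¹ * swap (a i) (b i) := fun i hi j hj hij =>
    comm_of_supp (hdis.2 i hi j hj hij) (swap_supp _ _ _) (inv_supp (cyc_supp _ _ _))
  have comm2 : ∀ i < w, ∀ j < w, i ≠ j → cyc (a i) (b i) (c i) * cyc (a j) (b j) (c j) =
      cyc (a j) (b j) (c j) * cyc (a i) (b i) (c i) := fun i hi j hj hij =>
    comm_of_supp (hdis.2 i hi j hj hij) (cyc_supp _ _ _) (cyc_supp _ _ _)
  have comm3 : ∀ i < w, ∀ j < w, i ≠ j → swap (a i) (b i) * swap (a j) (b j) =
      swap (a j) (b j) * swap (a i) (b i) := fun i hi j hj hij =>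
    comm_of_supp (hdis.2 i hi j hj hij) (swap_supp _ _ _) (swap_supp _ _ _)
  have tc : ∀ i, swap (a i) (b i) * cyc (a i) (b i) (c i) =
      (cyc (a i) (b i) (c i))⁻¹ * swap (a i) (b i) := by
    intro i
    rw [← cyc_mul_swap, mul_assoc, swap_mul_self, mul_one]
  have tc' : ∀ i, swap (a i) (b i) * (cyc (a i) (b i) (c i))⁻¹ =
      cyc (a i) (b i) (c i) * swap (a i) (b i) := by
    intro i
    rw [mul_inv_eq_iff_eq_mul, mul_assoc, tc, ← mul_assoc, mul_inv_cancel, one_mul]
  -- invariance of the subspace under a permutation commuting with or inverting the 3-cycles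
  have inv_comm : ∀ (f : Perm V), (∀ i < w, f * cyc (a i) (b i) (c i) = cyc (a i) (b i) (c i) * f ∨
      f * cyc (a i) (b i) (c i) = (cyc (a i) (b i) (c i))⁻¹ * f) →
      ∀ v ∈ sub ρ N a b c w, ρ f v ∈ sub ρ N a b c w := by
    intro f hf v hv
    obtain ⟨h1, h2⟩ := mem_sub.1 hv
    refine mem_sub.2 ⟨hN f v h1, fun i hi => ?_⟩
    have h3 := congrArg (ρ f) (h2 i hi)
    rw [map_add, map_add, map_zero, rho_rho, rho_rho] at h3
    rw [rho_rho, rho_rho, ← h3]
    rcases hf i hi with h | h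
    · have h' : f * (cyc (a i) (b i) (c i))⁻¹ = (cyc (a i) (b i) (c i))⁻¹ * f := by
        rw [eq_inv_mul_iff_mul_eq, ← mul_assoc, ← h, mul_assoc, mul_inv_cancel, mul_one]
      rw [h, h']
    · have h' : f * (cyc (a i) (b i) (c i))⁻¹ = cyc (a i) (b i) (c i) * f := by
        rw [mul_inv_eq_iff_eq_mul, mul_assoc, h, ← mul_assoc, mul_inv_cancel, one_mul]
      rw [h, h']
      abel
  refine two_pow_le (fun i => ρ (swap (a i) (b i)))
    (fun i => ρ (cyc (a i) (b i) (c i)) - ρ (cyc (a i) (b i) (c i))⁻¹) w _ hne ?_ ?_ ?_ ?_ ?_ ?_ ?_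
  · intro i hi v hv
    refine inv_comm _ (fun j hj => ?_) v hv
    by_cases hij : i = j
    · subst hij; exact Or.inr (tc i)
    · exact Or.inl (comm1 i hi j hj hij)
  · intro i hi v hv
    have h1 : ρ (cyc (a i) (b i) (c i)) v ∈ sub ρ N a b c w := by
      refine inv_comm _ (fun j hj => Or.inl ?_) v hv
      by_cases hij : i = j
      · subst hij; rfl
      · exact comm2 i hi j hj hij
    have h2 : ρ (cyc (a i) (b i) (c i))⁻¹ v ∈ sub ρ N a b c w := by
      refine inv_comm _ (fun j hj => Or.inl ?_) v hv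
      by_cases hij : i = j
      · subst hij; rw [inv_mul_cancel, mul_inv_cancel]
      · rw [inv_mul_eq_iff_eq_mul, ← mul_assoc, comm2 i hi j hj hij, mul_assoc, mul_inv_cancel,
          mul_one]
    exact Submodule.sub_mem _ h1 h2
  · intro i _ v _
    rw [rho_rho, swap_mul_self, map_one, Module.End.one_apply]
  · intro i hi v hv h0
    obtain ⟨h1, h2⟩ := mem_sub.1 hv
    have h3 := h2 i hi
    rw [LinearMap.sub_apply, sub_eq_zero] at h0
    obtain ⟨d1, d2, d3⟩ := hdis.1 i hi
    have h4 : ρ (cyc (a i) (b i) (c i))⁻¹ v = v := by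
      have := congrArg (ρ (cyc (a i) (b i) (c i))) h0
      rw [rho_rho, rho_rho, cyc_pow d1 d2 d3, mul_inv_cancel, map_one, Module.End.one_apply]
        at this
      exact this
    rw [h0, h4] at h3
    have : (3 : ℝ) • v = 0 := by
      rw [← h3]
      module
    exact (smul_eq_zero.1 this).resolve_left (by norm_num)
  · intro i _ v _
    rw [LinearMap.sub_apply, LinearMap.sub_apply, map_sub, rho_rho, rho_rho, rho_rho, rho_rho,
      tc i, tc' i, neg_sub]
  · intro i hi j hj hij v _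
    rw [rho_rho, rho_rho, comm3 i hi j hj hij]
  · intro i hi j hj hij v _
    rw [LinearMap.sub_apply, LinearMap.sub_apply, map_sub, rho_rho, rho_rho, rho_rho, rho_rho,
      comm1 i hi j hj hij, comm1' i hi j hj hij]

/-- A nonzero invariant space of dimension less than `2 ^ (k + 1)` contains a nonzero vector which
is fixed by the 3-cycles outside of a set of at most `3 k` points. -/
theorem exists_fixed [Nonempty V] {ρ : Perm V →* Module.End ℝ M} {N : Submodule ℝ M}
    (hN : ∀ σ, ∀ v ∈ N, ρ σ v ∈ N) (hne : N ≠ ⊥) {k : ℕ} (hdim : finrank ℝ N < 2 ^ (k + 1)) :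
    ∃ T : Finset V, T.card ≤ 3 * k ∧ ∃ u ∈ N, u ≠ 0 ∧ FixedOff ρ T u := by
  set P : ℕ → Prop := fun w => ∃ a b c : ℕ → V, Dis a b c w ∧ sub ρ N a b c w ≠ ⊥ with hP
  have hPk : ∀ w, P w → w ≤ k := by
    rintro w ⟨a, b, c, h1, h2⟩
    have h3 := two_pow_le_sub hN h1 h2
    have h4 : 2 ^ w < 2 ^ (k + 1) := lt_of_le_of_lt h3 hdim
    have := (Nat.pow_lt_pow_iff_right (by norm_num : 1 < 2)).1 h4
    omega
  have hP0 : P 0 := by
    obtain ⟨x⟩ := ‹Nonempty V›
    refine ⟨fun _ => x, fun _ => x, fun _ => x, ⟨fun i hi => by omega, fun i hi => by omega⟩, ?_⟩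
    intro h
    apply hne
    rw [eq_bot_iff, ← h]
    exact fun v hv => mem_sub.2 ⟨hv, fun i hi => by omega⟩
  obtain ⟨w, hw, hw'⟩ : ∃ w, P w ∧ ¬ P (w + 1) := by
    by_contra hcon
    push Not at hcon
    have : ∀ w, P w := fun w => by
      induction w with
      | zero => exact hP0
      | succ w ih => exact hcon w ih
    have := hPk _ (this (k + 1))
    omega
  obtain ⟨a, b, c, hdis, hsub⟩ := hw
  obtain ⟨u, hu, hu0⟩ := (Submodule.ne_bot_iff _).1 hsub
  obtain ⟨huN, hui⟩ := mem_sub.1 hu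
  refine ⟨pts a b c w, (card_pts a b c w).trans ?_, u, huN, hu0, ?_⟩
  · have := hPk w ⟨a, b, c, hdis, hsub⟩
    omega
  intro x y z hx hy hz hxy hxz hyz
  -- the vector `2 u - σ u - σ⁻¹ u` is in the next space
  set σ := cyc x y z with hσ
  set v := (2 : ℝ) • u - ρ σ u - ρ σ⁻¹ u with hv
  have hmem : ∀ i < w, x ∉ ({a i, b i, c i} : Finset V) ∧ y ∉ ({a i, b i, c i} : Finset V) ∧
      z ∉ ({a i, b i, c i} : Finset V) := by
    intro i hi
    refine ⟨fun h => hx ?_, fun h => hy ?_, fun h => hz ?_⟩ <;>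
    · unfold pts
      exact Finset.mem_biUnion.2 ⟨i, Finset.mem_range.2 hi, h⟩
  have hdisj : ∀ i < w, Disjoint ({a i, b i, c i} : Finset V) {x, y, z} := by
    intro i hi
    rw [Finset.disjoint_right]
    intro t ht
    simp only [Finset.mem_insert, Finset.mem_singleton] at ht
    rcases ht with rfl | rfl | rfl
    · exact (hmem i hi).1
    · exact (hmem i hi).2.1
    · exact (hmem i hi).2.2
  have hv0 : v = 0 := by
    by_contra hv0
    apply hw'
    set a' := Function.update a w x with ha'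
    set b' := Function.update b w y with hb'
    set c' := Function.update c w z with hc'
    have old : ∀ i < w, a' i = a i ∧ b' i = b i ∧ c' i = c i := by
      intro i hi
      rw [ha', hb', hc', Function.update_of_ne (by omega), Function.update_of_ne (by omega),
        Function.update_of_ne (by omega)]
      exact ⟨rfl, rfl, rfl⟩
    have new : a' w = x ∧ b' w = y ∧ c' w = z := by
      rw [ha', hb', hc', Function.update_self, Function.update_self, Function.update_self]
      exact ⟨rfl, rfl, rfl⟩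
    have hdis' : Dis a' b' c' (w + 1) := by
      refine ⟨fun i hi => ?_, fun i hi j hj hij => ?_⟩
      · by_cases h : i = w
        · rw [h, new.1, new.2.1, new.2.2]; exact ⟨hxy, hxz, hyz⟩
        · obtain ⟨e1, e2, e3⟩ := old i (by omega)
          rw [e1, e2, e3]; exact hdis.1 i (by omega)
      · by_cases h : i = w
        · by_cases h' : j = w
          · exact absurd (h.trans h'.symm) hij
          · obtain ⟨e1, e2, e3⟩ := old j (by omega)
            rw [h, new.1, new.2.1, new.2.2, e1, e2, e3]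
            exact (hdisj j (by omega)).symm
        · obtain ⟨e1, e2, e3⟩ := old i (by omega)
          by_cases h' : j = w
          · rw [h', new.1, new.2.1, new.2.2, e1, e2, e3]
            exact hdisj i (by omega)
          · obtain ⟨f1, f2, f3⟩ := old j (by omega)
            rw [e1, e2, e3, f1, f2, f3]
            exact hdis.2 i (by omega) j (by omega) hij
    refine ⟨a', b', c', hdis', ?_⟩
    rw [Submodule.ne_bot_iff]
    refine ⟨v, mem_sub.2 ⟨?_, ?_⟩, hv0⟩
    · exact N.sub_mem (N.sub_mem (N.smul_mem _ huN) (hN _ _ huN)) (hN _ _ huN)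
    · intro i hi
      by_cases h : i = w
      · rw [h, new.1, new.2.1, new.2.2, ← hσ, hv]
        have e1 : σ * σ = σ⁻¹ := cyc_pow hxy hxz hyz
        have e2 : σ⁻¹ * σ⁻¹ = σ := by rw [← mul_inv_rev, e1, inv_inv]
        simp only [map_sub, map_smul, rho_rho, e1, e2, mul_inv_cancel, inv_mul_cancel, map_one,
          Module.End.one_apply]
        module
      · obtain ⟨e1, e2, e3⟩ := old i (by omega)
        have hi' : i < w := by omega
        rw [e1, e2, e3]
        set κ := cyc (a i) (b i) (c i) with hκ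
        have c1 : κ * σ = σ * κ := comm_of_supp (hdisj i hi') (cyc_supp _ _ _) (cyc_supp _ _ _)
        have c2 : κ * σ⁻¹ = σ⁻¹ * κ :=
          comm_of_supp (hdisj i hi') (cyc_supp _ _ _) (inv_supp (cyc_supp _ _ _))
        have c3 : κ⁻¹ * σ = σ * κ⁻¹ :=
          comm_of_supp (hdisj i hi') (inv_supp (cyc_supp _ _ _)) (cyc_supp _ _ _)
        have c4 : κ⁻¹ * σ⁻¹ = σ⁻¹ * κ⁻¹ :=
          comm_of_supp (hdisj i hi') (inv_supp (cyc_supp _ _ _)) (inv_supp (cyc_supp _ _ _))
        have h0 := hui i hi'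
        rw [← hκ] at h0
        have h1 := congrArg (ρ σ) h0
        have h2 := congrArg (ρ σ⁻¹) h0
        rw [hv]
        simp only [map_sub, map_smul, rho_rho, map_add, map_zero] at h0 h1 h2 ⊢
        rw [c1, c2, c3, c4]
        have : (2 : ℝ) • (u + ρ κ u + ρ κ⁻¹ u) - (ρ σ u + ρ (σ * κ) u + ρ (σ * κ⁻¹) u) -
            (ρ σ⁻¹ u + ρ (σ⁻¹ * κ) u + ρ (σ⁻¹ * κ⁻¹) u) = 0 := by
          rw [h0, h1, h2]; simp
        rw [← this]
        module
  -- conclusion
  have e1 : σ * σ = σ⁻¹ := cyc_pow hxy hxz hyz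
  have h1 : (2 : ℝ) • u = ρ σ u + ρ σ⁻¹ u := by
    rw [hv, sub_sub, sub_eq_zero] at hv0
    exact hv0
  have h2 := congrArg (ρ σ) h1
  rw [map_smul, map_add, rho_rho, rho_rho, e1, mul_inv_cancel, map_one, Module.End.one_apply] at h2
  have h3 : (3 : ℝ) • (ρ σ u - u) = 0 := by
    have : (3 : ℝ) • (ρ σ u - u) = ((2 : ℝ) • ρ σ u - (2 : ℝ) • u) + (ρ σ u - u) := by module
    rw [this, h2, h1]
    module
  have h4 := (smul_eq_zero.1 h3).resolve_left (by norm_num)
  exact sub_eq_zero.1 h4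

omit [Fintype V] in
lemma conj_cyc (g : Perm V) (a b c : V) : g⁻¹ * cyc a b c * g = cyc (g⁻¹ a) (g⁻¹ b) (g⁻¹ c) := by
  unfold cyc
  have h : ∀ x y : V, g⁻¹ * swap x y * g = swap (g⁻¹ x) (g⁻¹ y) := by
    intro x y
    rw [Equiv.swap_apply_apply, inv_inv]
  rw [← h, ← h]
  group

omit [Fintype V] [FiniteDimensional ℝ M] in
lemma FixedOff.map {ρ : Perm V →* Module.End ℝ M} {T : Finset V} {u : M}
    (h : FixedOff ρ T u) (g : Perm V) : FixedOff ρ (T.map g.toEmbedding) (ρ g u) := by
  intro a b c ha hb hc hab hac hbc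
  have key : ∀ x, x ∉ T.map g.toEmbedding → g⁻¹ x ∉ T := by
    intro x hx hx'
    exact hx (Finset.mem_map.2 ⟨g⁻¹ x, hx', by simp⟩)
  have h1 := h (g⁻¹ a) (g⁻¹ b) (g⁻¹ c) (key a ha) (key b hb) (key c hc)
    (fun h => hab (g⁻¹.injective h)) (fun h => hac (g⁻¹.injective h))
    (fun h => hbc (g⁻¹.injective h))
  rw [← conj_cyc] at h1
  calc ρ (cyc a b c) (ρ g u) = ρ (g * (g⁻¹ * cyc a b c * g)) u := by
        rw [rho_rho]; congr 2; group
    _ = ρ g u := by rw [← rho_rho, h1]

omit [Fintype V] [FiniteDimensional ℝ M] in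
lemma FixedOff.closure {ρ : Perm V →* Module.End ℝ M} {T : Finset V} {u : M}
    (h : FixedOff ρ T u) {g : Perm V} (hg : g ∈ Subgroup.closure {σ : Perm V | ∃ a b c, a ∉ T ∧
      b ∉ T ∧ c ∉ T ∧ a ≠ b ∧ a ≠ c ∧ b ≠ c ∧ σ = cyc a b c}) : ρ g u = u := by
  refine Subgroup.closure_induction (p := fun g _ => ρ g u = u) ?_ ?_ ?_ ?_ hg
  · rintro σ ⟨a, b, c, ha, hb, hc, hab, hac, hbc, rfl⟩
    exact h a b c ha hb hc hab hac hbc
  · rw [map_one, Module.End.one_apply]
  · intro x y _ _ hx hy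
    rw [← rho_rho, hy, hx]
  · intro x _ hx
    calc ρ x⁻¹ u = ρ x⁻¹ (ρ x u) := by rw [hx]
      _ = u := by rw [rho_rho, inv_mul_cancel, map_one, Module.End.one_apply]

/-- A representation of dimension less than `2 ^ (k + 1)` is spanned by vectors which are fixed by
the 3-cycles outside of sets of at most `3 k` points. -/
theorem span_fixed [Nonempty V] (ρ : Perm V →* Module.End ℝ M) {k : ℕ}
    (hdim : finrank ℝ M < 2 ^ (k + 1)) :
    Submodule.span ℝ {u : M | ∃ T : Finset V, T.card ≤ 3 * k ∧ FixedOff ρ T u} = ⊤ := by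
  set W := Submodule.span ℝ {u : M | ∃ T : Finset V, T.card ≤ 3 * k ∧ FixedOff ρ T u} with hW
  have hWinv : ∀ g, ∀ w ∈ W, ρ g w ∈ W := by
    intro g w hw
    refine Submodule.span_induction (p := fun w _ => ρ g w ∈ W) ?_ ?_ ?_ ?_ hw
    · rintro u ⟨T, hT, hu⟩
      exact Submodule.subset_span ⟨_, by rw [Finset.card_map]; exact hT, hu.map g⟩
    · rw [map_zero]; exact W.zero_mem
    · intro x y _ _ hx hy
      rw [map_add]; exact W.add_mem hx hy
    · intro r x _ hx
      rw [map_smul]; exact W.smul_mem r hx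
  by_contra hne
  -- the dual representation
  set ρ' : Perm V →* Module.End ℝ (Module.Dual ℝ M) :=
    { toFun := fun g => (ρ g⁻¹).dualMap
      map_one' := by
        ext φ m
        simp
      map_mul' := by
        intro g h
        ext φ m
        simp [mul_inv_rev, map_mul] } with hρ'
  have hρ'a : ∀ g (φ : Module.Dual ℝ M) m, ρ' g φ m = φ (ρ g⁻¹ m) := fun g φ m => rfl
  have hN : ∀ g, ∀ φ ∈ W.dualAnnihilator, ρ' g φ ∈ W.dualAnnihilator := by
    intro g φ hφ
    rw [Submodule.mem_dualAnnihilator] at hφ ⊢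
    intro w hw
    rw [hρ'a]
    exact hφ _ (hWinv _ w hw)
  have hN0 : W.dualAnnihilator ≠ ⊥ := by
    intro h
    apply hne
    have h1 := Subspace.finrank_add_finrank_dualAnnihilator_eq W
    rw [h, finrank_bot, add_zero] at h1
    exact Submodule.eq_top_of_finrank_eq h1
  have hNdim : finrank ℝ W.dualAnnihilator < 2 ^ (k + 1) := by
    refine lt_of_le_of_lt (Submodule.finrank_le _) ?_
    rw [Subspace.dual_finrank_eq]
    exact hdim
  obtain ⟨T, hT, φ, hφ, hφ0, hfix⟩ := exists_fixed hN hN0 hNdim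
  obtain ⟨m, hm⟩ : ∃ m, φ m ≠ 0 := by
    by_contra hcon
    push Not at hcon
    exact hφ0 (LinearMap.ext hcon)
  set S : Set (Perm V) := {σ : Perm V | ∃ a b c, a ∉ T ∧
      b ∉ T ∧ c ∉ T ∧ a ≠ b ∧ a ≠ c ∧ b ≠ c ∧ σ = cyc a b c} with hS
  set H := Subgroup.closure S with hH
  set m' := ∑ h : H, ρ (h : Perm V) m with hm'
  have h1 : ∀ h : H, φ (ρ (h : Perm V) m) = φ m := by
    intro h
    have h2 : ρ' ((h : Perm V)⁻¹) φ = φ := hfix.closure (H.inv_mem h.2)
    have h3 := congrArg (fun ψ => ψ m) h2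
    simp only [hρ'a, inv_inv] at h3
    exact h3
  have h2 : φ m' ≠ 0 := by
    rw [hm', map_sum, Finset.sum_congr rfl (fun h _ => h1 h), Finset.sum_const, nsmul_eq_mul]
    refine mul_ne_zero ?_ hm
    rw [Finset.card_univ]
    exact_mod_cast Fintype.card_ne_zero
  apply h2
  rw [Submodule.mem_dualAnnihilator] at hφ
  refine hφ m' (Submodule.subset_span ⟨T, hT, ?_⟩)
  intro a b c ha hb hc hab hac hbc
  have h3 : cyc a b c ∈ H := Subgroup.subset_closure ⟨a, b, c, ha, hb, hc, hab, hac, hbc, rfl⟩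
  rw [hm', map_sum]
  refine Fintype.sum_equiv (Equiv.mulLeft (⟨_, h3⟩ : H)) _ _ (fun h => ?_)
  rw [rho_rho]
  rfl

end rep

end Pool.Agent.Lib.MP_8d8c46_lc.SOS
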