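import Pool.Agent.Lib.MP_8d8c46_lc.SOS.Measure
import Pool.Agent.Lib.MP_8d8c46_lc.SOS.Even
import Pool.Agent.Lib.MP_8d8c46_lc.Union

/-!
The sets of vertices and the permutations of the vertices given by an assignment.
-/

set_option autoImplicit false

open scoped Classical
open Finset

namespace Pool.Agent.Lib.MP_8d8c46_lc.SOS

lemma sign_addRight (c : ZMod 2 × ZMod 2) {inst : DecidableEq (ZMod 2 × ZMod 2)} :
    @Equiv.Perm.sign (ZMod 2 × ZMod 2) inst _ (Equiv.addRight c) = 1 := by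
  have h : inst = instDecidableEqProd := Subsingleton.elim _ _
  subst h
  revert c
  decide

section
variable {V E₁ E₂ : Type*} (x : E₁ ⊕ E₂ → Fin 3 → V) (b : E₁ ⊕ E₂ → ZMod 2) (p : ℕ)

/-- the label of the equation `e` for the assignment `y` -/
def lab (y : V → ZMod 2) (e : E₁ ⊕ E₂) : Lab := (y (x e 0), y (x e 1))

/-- the local solutions of the equations of the first system that agree with `y` -/
noncomputable def base [Fintype E₁] (y : V → ZMod 2) : Finset ((E₁ ⊕ E₂) × Lab) :=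
  (univ : Finset E₁).image (fun e => (Sum.inl e, lab x y (Sum.inl e)))

/-- the set of vertices of the assignment `y` -/
noncomputable def setOf [Fintype E₁] [Fact p.Prime] (y : V → ZMod 2) :
    Finset (((E₁ ⊕ E₂) × Lab) × Pl p) :=
  base x y ×ˢ (univ : Finset (Pl p))

/-- the permutation of the vertices given by the assignment `y` -/
def perm (y : V → ZMod 2) : Equiv.Perm (((E₁ ⊕ E₂) × Lab) × Pl p) :=
  Equiv.prodCongrLeft (fun _ : Pl p => Equiv.prodCongrRight (fun e : E₁ ⊕ E₂ =>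
    Equiv.addRight (lab x y e)))

lemma perm_apply (y : V → ZMod 2) (v : ((E₁ ⊕ E₂) × Lab) × Pl p) :
    perm x p y v = ((v.1.1, v.1.2 + lab x y v.1.1), v.2) := rfl

/-- the variables that the vertices of `T` depend on -/
noncomputable def vset (T : Finset (((E₁ ⊕ E₂) × Lab) × Pl p)) : Finset V :=
  T.biUnion (fun v => {x v.1.1 0, x v.1.1 1})

lemma card_vset (T : Finset (((E₁ ⊕ E₂) × Lab) × Pl p)) : (vset x p T).card ≤ 2 * T.card := by
  unfold vset
  refine (card_biUnion_le_card_mul _ _ 2 (fun i _ => Finset.card_le_two)).trans ?_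
  rw [mul_comm]

lemma lab_congr {T : Finset (((E₁ ⊕ E₂) × Lab) × Pl p)} {y y' : V → ZMod 2}
    (h : ∀ v ∈ vset x p T, y v = y' v) {v : ((E₁ ⊕ E₂) × Lab) × Pl p} (hv : v ∈ T) :
    lab x y v.1.1 = lab x y' v.1.1 := by
  unfold lab
  have h0 : x v.1.1 0 ∈ vset x p T := mem_biUnion.2 ⟨v, hv, by simp⟩
  have h1 : x v.1.1 1 ∈ vset x p T := mem_biUnion.2 ⟨v, hv, by simp⟩
  rw [h _ h0, h _ h1]

lemma perm_congr {T : Finset (((E₁ ⊕ E₂) × Lab) × Pl p)} {y y' : V → ZMod 2}
    (h : ∀ v ∈ vset x p T, y v = y' v) {v : ((E₁ ⊕ E₂) × Lab) × Pl p} (hv : v ∈ T) :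
    perm x p y v = perm x p y' v := by
  rw [perm_apply, perm_apply, lab_congr x p h hv]

variable [Fintype E₁] [Fact p.Prime]

lemma mem_setOf {y : V → ZMod 2} {v : ((E₁ ⊕ E₂) × Lab) × Pl p} :
    v ∈ setOf x p y ↔ ∃ e : E₁, v.1 = (Sum.inl e, lab x y (Sum.inl e)) := by
  unfold setOf base
  simp only [mem_product, mem_image, mem_univ, true_and, and_true]
  constructor
  · rintro ⟨e, h⟩; exact ⟨e, h.symm⟩
  · rintro ⟨e, h⟩; exact ⟨e, h.symm⟩

lemma mem_setOf_congr {T : Finset (((E₁ ⊕ E₂) × Lab) × Pl p)} {y y' : V → ZMod 2}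
    (h : ∀ v ∈ vset x p T, y v = y' v) {v : ((E₁ ⊕ E₂) × Lab) × Pl p} (hv : v ∈ T) :
    v ∈ setOf x p y ↔ v ∈ setOf x p y' := by
  rw [mem_setOf, mem_setOf]
  have key : ∀ y y' : V → ZMod 2, (∀ v ∈ vset x p T, y v = y' v) →
      (∃ e : E₁, v.1 = (Sum.inl e, lab x y (Sum.inl e))) →
      ∃ e : E₁, v.1 = (Sum.inl e, lab x y' (Sum.inl e)) := by
    rintro y y' h ⟨e, he⟩
    have h1 := lab_congr x p h hv
    refine ⟨e, ?_⟩
    rw [he]
    have h2 : v.1.1 = Sum.inl e := by rw [he]
    rw [h2] at h1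
    rw [h1]
  exact ⟨key y y' h, key y' y (fun v hv => (h v hv).symm)⟩

lemma setOf_eq_map (y : V → ZMod 2) :
    setOf x p y = (setOf x p 0).map (perm x p y).toEmbedding := by
  ext v
  rw [mem_map_equiv, mem_setOf, mem_setOf]
  have hlab0 : ∀ e, lab x (0 : V → ZMod 2) e = 0 := fun e => rfl
  have hsymm : (perm x p y).symm v = perm x p y v := by
    rw [Equiv.symm_apply_eq, perm_apply, perm_apply]
    simp only [add_assoc]
    have : lab x y v.1.1 + lab x y v.1.1 = 0 := by
      ext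
      · exact CharTwo.add_self_eq_zero _
      · exact CharTwo.add_self_eq_zero _
    rw [this, add_zero]
  rw [hsymm, perm_apply]
  simp only [hlab0]
  refine exists_congr (fun e => ?_)
  have hself : ∀ a : Lab, a + a = 0 := fun a => by
    ext
    · exact CharTwo.add_self_eq_zero _
    · exact CharTwo.add_self_eq_zero _
  constructor
  · intro h
    rw [h]
    simp only [hself]
  · intro h
    obtain ⟨h1, h2⟩ := Prod.mk.inj h
    have h3 : v.1.2 = lab x y (Sum.inl e) := by
      rw [h1] at h2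
      have : v.1.2 + lab x y (Sum.inl e) + lab x y (Sum.inl e) = 0 + lab x y (Sum.inl e) := by
        rw [h2]
      rw [add_assoc, hself, add_zero, zero_add] at this
      exact this
    exact Prod.ext h1 h3

lemma card_setOf (y : V → ZMod 2) : (setOf (E₂ := E₂) x p y).card = Fintype.card E₁ * p ^ 2 := by
  unfold setOf base
  rw [card_product, card_image_of_injective, card_univ, card_univ, Fintype.card_prod, ZMod.card, sq]
  intro e e' h
  simpa using (Prod.mk.inj h).1

lemma sign_perm [Fintype E₂] (y : V → ZMod 2) :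
    Equiv.Perm.sign (perm (E₁ := E₁) (E₂ := E₂) x p y) = 1 := by
  unfold perm
  rw [Equiv.Perm.sign_prodCongrLeft]
  refine prod_eq_one (fun z _ => ?_)
  rw [Equiv.Perm.sign_prodCongrRight]
  exact prod_eq_one (fun e _ => sign_addRight _)

end

end Pool.Agent.Lib.MP_8d8c46_lc.SOS
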