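import Pool.Agent.Lib.MP_8d8c46_lc.SOS.Sets

/-!
The pseudo-expectation of the number of edges inside the set of an assignment.
-/

set_option autoImplicit false

open scoped Classical
open Finset

namespace Pool.Agent.Lib.MP_8d8c46_lc.SOS

section
variable {V E₁ E₂ : Type*} [Fintype V] [Fintype E₁] [Fintype E₂]
  {x : E₁ ⊕ E₂ → Fin 3 → V} {b : E₁ ⊕ E₂ → ZMod 2}

omit [Fintype V] [Fintype E₁] [Fintype E₂] in
lemma sval_lab (y : V → ZMod 2) (e : E₁ ⊕ E₂) (i : Fin 3) :
    sval b (e, lab x y e) i = y (x e i) + (if i = 2 then 1 else 0) * (b e + ∑ k, y (x e k)) := by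
  have h2 : ∀ t : ZMod 2, t + t = 0 := CharTwo.add_self_eq_zero
  fin_cases i
  · show y (x e 0) = y (x e 0) + (if (0 : Fin 3) = 2 then (1 : ZMod 2) else 0) * _
    rw [if_neg (by decide), zero_mul, add_zero]
  · show y (x e 1) = y (x e 1) + (if (1 : Fin 3) = 2 then (1 : ZMod 2) else 0) * _
    rw [if_neg (by decide), zero_mul, add_zero]
  · show b e + y (x e 0) + y (x e 1) = y (x e 2) + (if (2 : Fin 3) = 2 then (1 : ZMod 2) else 0) * _
    rw [if_pos rfl, one_mul, Fin.sum_univ_three]
    linear_combination - h2 (y (x e 2))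

lemma nu_ind {s : ℕ} (hexp : Expands x s) {F : E₁ ⊕ E₂ → ZMod 2} (hF : (spt F).card ≤ s) :
    ∑ y, nu x b s y * (if ∑ e, F e * (b e + ∑ i, y (x e i)) = 0 then (1 : ℝ) else 0) = 1 := by
  have h1 : ∀ y : V → ZMod 2, nu x b s y *
      (if ∑ e, F e * (b e + ∑ i, y (x e i)) = 0 then (1 : ℝ) else 0) =
      (nu x b s y + nu x b s y * sg (∑ e, F e * (b e + ∑ i, y (x e i)))) / 2 := by
    intro y
    rw [ind_eq_sg]; ring
  rw [sum_congr rfl (fun y _ => h1 y), ← sum_div, sum_add_distrib, sum_nu hexp,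
    nu_equation hexp hF]
  norm_num

lemma nu_links {s : ℕ} (hexp : Expands x s) (hs : 2 ≤ s) (e e' : E₁ ⊕ E₂) :
    ∑ y, nu x b s y * (links x b (e, lab x y e) (e', lab x y e') : ℝ) =
      ∑ i : Fin 3, ∑ j : Fin 3, if x e i = x e' j then 1 else 0 := by
  have h1 : ∀ y : V → ZMod 2, (links x b (e, lab x y e) (e', lab x y e') : ℝ) =
      ∑ i : Fin 3, ∑ j : Fin 3, (if x e i = x e' j then 1 else 0) *
        (if ∑ e'', ((if i = 2 then Pi.single e (1 : ZMod 2) else 0) +
          (if j = 2 then Pi.single e' (1 : ZMod 2) else 0) : E₁ ⊕ E₂ → ZMod 2) e'' *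
          (b e'' + ∑ k, y (x e'' k)) = 0 then (1 : ℝ) else 0) := by
    intro y
    unfold links
    rw [card_filter, Fintype.sum_prod_type]
    push_cast
    refine sum_congr rfl (fun i _ => sum_congr rfl (fun j _ => ?_))
    have hsum : ∀ (c : Prop) [Decidable c] (e₀ : E₁ ⊕ E₂), ∑ e'',
        (if c then (Pi.single e₀ (1 : ZMod 2) : E₁ ⊕ E₂ → ZMod 2) else 0) e'' *
        (b e'' + ∑ k, y (x e'' k)) = (if c then 1 else 0) * (b e₀ + ∑ k, y (x e₀ k)) := by
      intro c _ e₀
      split_ifs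
      · rw [sum_eq_single e₀]
        · rw [Pi.single_eq_same]
        · intro u _ hu
          rw [Pi.single_eq_of_ne hu, zero_mul]
        · intro h; exact absurd (mem_univ e₀) h
      · simp
    have hL : ∑ e'', ((if i = 2 then Pi.single e (1 : ZMod 2) else 0) +
          (if j = 2 then Pi.single e' (1 : ZMod 2) else 0) : E₁ ⊕ E₂ → ZMod 2) e'' *
          (b e'' + ∑ k, y (x e'' k)) = (if i = 2 then 1 else 0) * (b e + ∑ k, y (x e k)) +
            (if j = 2 then 1 else 0) * (b e' + ∑ k, y (x e' k)) := by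
      rw [← hsum (i = 2) e, ← hsum (j = 2) e', ← sum_add_distrib]
      exact sum_congr rfl (fun e'' _ => by rw [Pi.add_apply, add_mul])
    rw [hL]
    simp only [sval_lab]
    by_cases h : x e i = x e' j
    · rw [h]
      have : (y (x e' j) + (if i = 2 then 1 else 0) * (b e + ∑ k, y (x e k)) =
          y (x e' j) + (if j = 2 then 1 else 0) * (b e' + ∑ k, y (x e' k))) ↔
          ((if i = 2 then 1 else 0) * (b e + ∑ k, y (x e k)) +
            (if j = 2 then 1 else 0) * (b e' + ∑ k, y (x e' k)) = 0) := by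
        rw [add_right_inj]
        constructor
        · intro h'; rw [h']; exact CharTwo.add_self_eq_zero _
        · intro h'
          have h2 := CharTwo.add_self_eq_zero ((if j = 2 then 1 else 0) * (b e' + ∑ k, y (x e' k)))
          exact add_right_cancel (h'.trans h2.symm)
      simp only [true_and, this, if_true, one_mul]
    · simp only [h, false_and, if_false, zero_mul]
  simp only [h1, mul_sum]
  rw [sum_comm]
  refine sum_congr rfl (fun i _ => ?_)
  rw [sum_comm]
  refine sum_congr rfl (fun j _ => ?_)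
  have hcard : (spt ((if i = 2 then Pi.single e (1 : ZMod 2) else 0) +
          (if j = 2 then Pi.single e' (1 : ZMod 2) else 0) : E₁ ⊕ E₂ → ZMod 2)).card ≤ s := by
    have h2 : ∀ (c : Prop) [Decidable c] (e₀ : E₁ ⊕ E₂),
        (spt (if c then (Pi.single e₀ (1 : ZMod 2) : E₁ ⊕ E₂ → ZMod 2) else 0)).card ≤ 1 := by
      intro c _ e₀
      split_ifs
      · rw [card_le_one]
        intro a ha a' ha'
        rw [mem_spt] at ha ha'
        have : ∀ u, (Pi.single e₀ (1 : ZMod 2) : E₁ ⊕ E₂ → ZMod 2) u ≠ 0 → u = e₀ := by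
          intro u hu
          by_contra hne
          exact hu (Pi.single_eq_of_ne hne _)
        rw [this a ha, this a' ha']
      · rw [spt_zero]; simp
    have h3 := card_spt_add (if i = 2 then (Pi.single e (1 : ZMod 2) : E₁ ⊕ E₂ → ZMod 2) else 0)
      (if j = 2 then (Pi.single e' (1 : ZMod 2) : E₁ ⊕ E₂ → ZMod 2) else 0)
    have h4 := h2 (i = 2) e
    have h5 := h2 (j = 2) e'
    omega
  have h6 := nu_ind (b := b) hexp hcard
  have h7 : ∀ y : V → ZMod 2, nu x b s y * ((if x e i = x e' j then 1 else 0) *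
        (if ∑ e'', ((if i = 2 then Pi.single e (1 : ZMod 2) else 0) +
          (if j = 2 then Pi.single e' (1 : ZMod 2) else 0) : E₁ ⊕ E₂ → ZMod 2) e'' *
          (b e'' + ∑ k, y (x e'' k)) = 0 then (1 : ℝ) else 0)) =
      (if x e i = x e' j then 1 else 0) * (nu x b s y *
        (if ∑ e'', ((if i = 2 then Pi.single e (1 : ZMod 2) else 0) +
          (if j = 2 then Pi.single e' (1 : ZMod 2) else 0) : E₁ ⊕ E₂ → ZMod 2) e'' *
          (b e'' + ∑ k, y (x e'' k)) = 0 then (1 : ℝ) else 0)) := fun y => by ring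
  rw [sum_congr rfl (fun y _ => h7 y), ← mul_sum, h6, mul_one]

end

section
variable {V E₁ E₂ : Type*} [Fintype V] [Fintype E₁] [Fintype E₂]

/-- The pseudo-expectation of the total weight inside the set of an assignment. -/
theorem nu_wgt {x : E₁ ⊕ E₂ → Fin 3 → V} {D s u : ℕ}
    (h₁ : ∀ (e : E₁) (i j : Fin 3),
      (univ.filter (fun e' : E₁ => x (Sum.inl e') j = x (Sum.inl e) i)).card = D)
    {b : E₁ ⊕ E₂ → ZMod 2} (hexp : Expands x s) (hs : 2 ≤ s) :
    ∑ y, nu x b s y * ((∑ q ∈ base x y, ∑ r ∈ base x y,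
      wgt x b u q r : ℕ) : ℝ) = Fintype.card E₁ * (9 * D + u) := by
  have hinj : ∀ y : V → ZMod 2, Function.Injective
      (fun e : E₁ => ((Sum.inl e, lab x y (Sum.inl e)) : (E₁ ⊕ E₂) × Lab)) := by
    intro y e e' h
    simpa using (Prod.mk.inj h).1
  have h1 : ∀ y : V → ZMod 2, ((∑ q ∈ base x y, ∑ r ∈ base x y,
      wgt x b u q r : ℕ) : ℝ) = ∑ e : E₁, ∑ e' : E₁,
        ((links x b (Sum.inl e, lab x y (Sum.inl e)) (Sum.inl e', lab x y (Sum.inl e')) : ℝ) +
          if e = e' then (u : ℝ) else 0) := by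
    intro y
    unfold base
    rw [sum_image (fun a _ b _ h => hinj y h)]
    push_cast
    refine sum_congr rfl (fun e _ => ?_)
    rw [sum_image (fun a _ b _ h => hinj y h)]
    refine sum_congr rfl (fun e' _ => ?_)
    unfold wgt
    push_cast
    congr 1
    by_cases h : e = e'
    · rw [h, if_pos rfl, if_pos rfl]
    · rw [if_neg h, if_neg (fun h' => h (hinj y h'))]
  simp only [h1, mul_sum]
  have hrow : ∀ e : E₁, ∑ y, ∑ e' : E₁, nu x b s y *
      ((links x b (Sum.inl e, lab x y (Sum.inl e)) (Sum.inl e', lab x y (Sum.inl e')) : ℝ) +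
          if e = e' then (u : ℝ) else 0) = 9 * D + u := by
    intro e
    rw [sum_comm]
    have h2 : ∀ e' : E₁, ∑ y, nu x b s y *
      ((links x b (Sum.inl e, lab x y (Sum.inl e)) (Sum.inl e', lab x y (Sum.inl e')) : ℝ) +
          if e = e' then (u : ℝ) else 0) =
        (∑ i : Fin 3, ∑ j : Fin 3, if x (Sum.inl e) i = x (Sum.inl e') j then 1 else 0) +
          if e = e' then (u : ℝ) else 0 := by
      intro e'
      simp only [mul_add, sum_add_distrib]
      have h6 := nu_links (b := b) hexp hs (Sum.inl e) (Sum.inl e')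
      rw [h6, ← sum_mul, sum_nu hexp, one_mul]
    rw [sum_congr rfl (fun e' _ => h2 e'), sum_add_distrib, sum_ite_eq, if_pos (mem_univ _)]
    congr 1
    rw [sum_comm]
    have h3 : ∀ i : Fin 3, ∑ e' : E₁, ∑ j : Fin 3,
        (if x (Sum.inl e) i = x (Sum.inl e') j then (1 : ℝ) else 0) = 3 * D := by
      intro i
      rw [sum_comm]
      have h4 : ∀ j : Fin 3, ∑ e' : E₁,
          (if x (Sum.inl e) i = x (Sum.inl e') j then (1 : ℝ) else 0) = D := by
        intro j
        rw [← h₁ e i j, card_filter]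
        push_cast
        refine sum_congr rfl (fun e' _ => ?_)
        by_cases h : x (Sum.inl e') j = x (Sum.inl e) i
        · rw [if_pos h, if_pos h.symm]
        · rw [if_neg h, if_neg (fun h' => h h'.symm)]
      rw [sum_congr rfl (fun j _ => h4 j), sum_const, card_univ, Fintype.card_fin, nsmul_eq_mul]
      norm_num
    rw [sum_congr rfl (fun i _ => h3 i), sum_const, card_univ, Fintype.card_fin, nsmul_eq_mul]
    push_cast
    ring
  rw [sum_comm, sum_congr rfl (fun e _ => hrow e), sum_const, card_univ, nsmul_eq_mul]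

end

end Pool.Agent.Lib.MP_8d8c46_lc.SOS
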